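import Pool.Agent.T6.H11.EC.Tri

/-!
# Counting edge covers

A graph with the structure of `Pool.Agent.T6.H11.EC.triangles` has fewer than `3 ^ T` edge covers.
-/

set_option autoImplicit false
set_option linter.unusedSectionVars false

namespace Pool.Agent.T6.H11.EC

open Finset

section
variable {V : Type} [Fintype V] [DecidableEq V] {G : SimpleGraph V} [DecidableRel G.Adj]

theorem Tri.nu {e : Sym2 V} {u v a b : V} (h : Tri G e u v a b) {y : V} (hy : G.Adj u y) :
    y = v ∨ y = a ∨ y = b := by
  have hva : v ≠ a := by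
    rintro rfl
    have := h.dv
    have := h.da
    omega
  have hvb : v ≠ b := by
    rintro rfl
    have := h.dv
    have := h.db
    omega
  have h1 : ({v, a, b} : Finset V) = G.neighborFinset u := by
    apply Finset.eq_of_subset_of_card_le
    · intro x hx
      rw [SimpleGraph.mem_neighborFinset]
      simp only [Finset.mem_insert, Finset.mem_singleton] at hx
      rcases hx with rfl | rfl | rfl
      · exact h.uv
      · exact h.ua
      · exact h.ub
    · rw [SimpleGraph.card_neighborFinset_eq_degree, h.du,
        Finset.card_eq_three.2 ⟨v, a, b, hva, hvb, h.ab.ne, rfl⟩]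
  have h2 : y ∈ ({v, a, b} : Finset V) := by
    rw [h1, SimpleGraph.mem_neighborFinset]; exact hy
  simpa using h2

theorem Tri.na {e : Sym2 V} {u v a b : V} (h : Tri G e u v a b) {y : V} (hy : G.Adj a y) :
    y = u ∨ y = b := by
  have h1 : ({u, b} : Finset V) = G.neighborFinset a := by
    apply Finset.eq_of_subset_of_card_le
    · intro x hx
      rw [SimpleGraph.mem_neighborFinset]
      simp only [Finset.mem_insert, Finset.mem_singleton] at hx
      rcases hx with rfl | rfl
      · exact h.ua.symm
      · exact h.ab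
    · rw [SimpleGraph.card_neighborFinset_eq_degree, h.da, Finset.card_pair h.ub.ne]
  have h2 : y ∈ ({u, b} : Finset V) := by
    rw [h1, SimpleGraph.mem_neighborFinset]; exact hy
  simpa using h2

theorem Tri.swap {e : Sym2 V} {u v a b : V} (h : Tri G e u v a b) : Tri G e u v b a :=
  ⟨h.eq, h.uv, h.ub, h.ua, h.ab.symm, h.du, h.dv, h.db, h.da⟩

theorem Tri.nb {e : Sym2 V} {u v a b : V} (h : Tri G e u v a b) {y : V} (hy : G.Adj b y) :
    y = u ∨ y = a := h.swap.na hy

theorem Tri.a_only {e : Sym2 V} {u v a b : V} (h : Tri G e u v a b) {y : V} (hy : G.Adj a y)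
    (h3 : 3 ≤ G.degree y) : y = u := by
  rcases h.na hy with h1 | rfl
  · exact h1
  · have := h.db
    omega

theorem Tri.u_only {e : Sym2 V} {u v a b : V} (h : Tri G e u v a b) {y : V} (hy : G.Adj u y)
    (h3 : 3 ≤ G.degree y) : y = v := by
  rcases h.nu hy with h1 | rfl | rfl
  · exact h1
  · have := h.da
    omega
  · have := h.db
    omega

theorem Tri.inj {e e' : Sym2 V} {u v a b u' v' b' : V} (h : Tri G e u v a b)
    (h' : Tri G e' u' v' a b') : e = e' := by
  have h1 : u' = u := h.a_only h'.ua.symm (by rw [h'.du])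
  subst h1
  have h2 : v' = v := h.u_only h'.uv h'.dv
  subst h2
  rw [h.eq, h'.eq]

theorem Tri.inj' {e e' : Sym2 V} {u v a b u' v' a' b' : V} (h : Tri G e u v a b)
    (h' : Tri G e' u' v' a' b') (x : V) (hx : x = a ∨ x = b) (hx' : x = a' ∨ x = b') :
    e = e' := by
  rcases hx with rfl | rfl <;> rcases hx' with rfl | rfl
  · exact h.inj h'
  · exact h.inj h'.swap
  · exact h.swap.inj h'
  · exact h.swap.inj h'.swap

/-- the block of a triangle -/
def B2 (e : Sym2 V) (u a b : V) : Finset (Sym2 V) := {s(u, a), s(u, b), s(a, b), e}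

/-- the subsets of the block which cover the triangle -/
def good (e : Sym2 V) (u a b : V) : Finset (Finset (Sym2 V)) :=
  (B2 e u a b).powerset.filter
    (fun R => (∃ f ∈ R, a ∈ f) ∧ (∃ f ∈ R, b ∈ f) ∧ (∃ f ∈ R, u ∈ f))

/-- the nine patterns -/
def nine : Finset (Bool × Bool × Bool × Bool) :=
  univ.filter (fun p => (p.1 || p.2.2.1) && (p.2.1 || p.2.2.1) && (p.1 || p.2.1 || p.2.2.2))

theorem nine_card : nine.card = 9 := by decide

theorem Tri.good_card {e : Sym2 V} {u v a b : V} (h : Tri G e u v a b) :
    #(good e u a b) ≤ 9 := by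
  rw [← nine_card]
  have hua := h.ua.ne
  have hub := h.ub.ne
  have hab := h.ab.ne
  have hva : v ≠ a := by
    rintro rfl
    have := h.dv
    have := h.da
    omega
  have hvb : v ≠ b := by
    rintro rfl
    have := h.dv
    have := h.db
    omega
  have he := h.eq
  apply Finset.card_le_card_of_injOn
    (fun R => (decide (s(u, a) ∈ R), decide (s(u, b) ∈ R), decide (s(a, b) ∈ R), decide (e ∈ R)))
  · intro R hR
    rw [Finset.mem_coe, good, Finset.mem_filter, Finset.mem_powerset] at hR
    obtain ⟨h1, ⟨f1, hf1, ha⟩, ⟨f2, hf2, hb⟩, ⟨f3, hf3, hu⟩⟩ := hR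
    have m1 := h1 hf1
    have m2 := h1 hf2
    have m3 := h1 hf3
    simp only [B2, Finset.mem_insert, Finset.mem_singleton] at m1 m2 m3
    rw [Finset.mem_coe, nine, Finset.mem_filter]
    refine ⟨Finset.mem_univ _, ?_⟩
    simp only [Bool.and_eq_true, Bool.or_eq_true, decide_eq_true_eq]
    refine ⟨⟨?_, ?_⟩, ?_⟩
    · rcases m1 with rfl | rfl | rfl | rfl
      · exact Or.inl hf1
      · rw [Sym2.mem_iff] at ha
        rcases ha with ha | ha
        · exact absurd ha.symm hua
        · exact absurd ha hab
      · exact Or.inr hf1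
      · rw [he, Sym2.mem_iff] at ha
        rcases ha with ha | ha
        · exact absurd ha.symm hua
        · exact absurd ha.symm hva
    · rcases m2 with rfl | rfl | rfl | rfl
      · rw [Sym2.mem_iff] at hb
        rcases hb with hb | hb
        · exact absurd hb.symm hub
        · exact absurd hb.symm hab
      · exact Or.inl hf2
      · exact Or.inr hf2
      · rw [he, Sym2.mem_iff] at hb
        rcases hb with hb | hb
        · exact absurd hb.symm hub
        · exact absurd hb.symm hvb
    · rcases m3 with rfl | rfl | rfl | rfl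
      · exact Or.inl (Or.inl hf3)
      · exact Or.inl (Or.inr hf3)
      · rw [Sym2.mem_iff] at hu
        rcases hu with hu | hu
        · exact absurd hu hua
        · exact absurd hu hub
      · exact Or.inr hf3
  · intro R hR R' hR' heq
    rw [Finset.mem_coe, good, Finset.mem_filter, Finset.mem_powerset] at hR hR'
    simp only [Prod.mk.injEq, decide_eq_decide] at heq
    obtain ⟨q1, q2, q3, q4⟩ := heq
    ext f
    constructor
    · intro hf
      have := hR.1 hf
      simp only [B2, Finset.mem_insert, Finset.mem_singleton] at this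
      rcases this with rfl | rfl | rfl | rfl
      · exact q1.1 hf
      · exact q2.1 hf
      · exact q3.1 hf
      · exact q4.1 hf
    · intro hf
      have := hR'.1 hf
      simp only [B2, Finset.mem_insert, Finset.mem_singleton] at this
      rcases this with rfl | rfl | rfl | rfl
      · exact q1.2 hf
      · exact q2.2 hf
      · exact q3.2 hf
      · exact q4.2 hf

theorem count (hconn : G.Connected) (hdeg : ∀ x, 2 ≤ G.degree x) (T : ℕ)
    (hT : #G.edgeFinset = 2 * T) (hn2 : #(univ.filter fun x => G.degree x = 2) = T)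
    (u v a b : Sym2 V → V) (htri : ∀ e ∈ MM G, Tri G e (u e) (v e) (a e) (b e))
    (hDD : ∀ f ∈ DD G, ∃ e ∈ MM G, f = s(a e, b e)) :
    #(G.edgeFinset.powerset.filter (fun S => ∀ x, ∃ e ∈ S, x ∈ e)) < 3 ^ T := by
  classical
  set M := MM G with hM
  set V2 : Finset V := univ.filter fun x => G.degree x = 2 with hV2
  have mV2 : ∀ x, x ∈ V2 ↔ G.degree x = 2 := by
    intro x
    rw [hV2, Finset.mem_filter]
    simp
  set W : Finset V := M.biUnion (fun e => {a e, b e}) with hW
  have mW : ∀ x, x ∈ W ↔ ∃ e ∈ M, x = a e ∨ x = b e := by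
    intro x
    rw [hW, Finset.mem_biUnion]
    simp
  have hWcard : #W = 2 * #M := by
    rw [hW, Finset.card_biUnion]
    · rw [Finset.sum_congr rfl (fun e he => Finset.card_pair (htri e he).ab.ne),
        Finset.sum_const, smul_eq_mul, mul_comm]
    · intro e he e' he' hne
      rw [Function.onFun, Finset.disjoint_left]
      intro x hx hx'
      simp only [Finset.mem_insert, Finset.mem_singleton] at hx hx'
      exact hne ((htri e he).inj' (htri e' he') x hx hx')
  have hWV : W ⊆ V2 := by
    intro x hx
    rw [mW] at hx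
    obtain ⟨e, he, rfl | rfl⟩ := hx
    · exact (mV2 _).2 (htri e he).da
    · exact (mV2 _).2 (htri e he).db
  set I : Finset V := V2 \ W with hI
  have hIcard : #I + 2 * #M = T := by
    rw [← hWcard, hI, Finset.card_sdiff_add_card_eq_card hWV, hn2]
  -- the other vertices
  set U : Finset V := univ.filter (fun x => 3 ≤ G.degree x ∧ ∀ e ∈ M, x ≠ u e) with hU
  have mU : ∀ x, x ∈ U ↔ 3 ≤ G.degree x ∧ ∀ e ∈ M, x ≠ u e := by
    intro x
    rw [hU, Finset.mem_filter]
    simp
  have hUne : U.Nonempty := by
    by_cases hMe : M.Nonempty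
    · obtain ⟨e, he⟩ := hMe
      refine ⟨v e, (mU _).2 ⟨(htri e he).dv, ?_⟩⟩
      intro e' he' heq
      have h1 : G.Adj (u e') (u e) := by
        rw [← heq]; exact (htri e he).uv.symm
      have h2 := (htri e' he').u_only h1 (by rw [(htri e he).du])
      have h3 : e = e' := by
        rw [(htri e he).eq, (htri e' he').eq, heq, h2]
        exact Sym2.eq_swap
      rw [← h3] at heq
      exact (htri e he).uv.ne heq.symm
    · rw [Finset.not_nonempty_iff_eq_empty] at hMe
      by_contra hcon
      rw [Finset.not_nonempty_iff_eq_empty] at hcon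
      have h1 : ∀ x, G.degree x = 2 := by
        intro x
        by_contra h2
        have h3 : x ∈ U := (mU x).2 ⟨by have := hdeg x; omega, by rw [hMe]; simp⟩
        rw [hcon] at h3
        simp at h3
      have h2 := G.sum_degrees_eq_twice_card_edges
      rw [Finset.sum_congr rfl (fun x _ => h1 x), Finset.sum_const, smul_eq_mul, hT] at h2
      have h3 : V2 = univ := by
        ext x
        simp [mV2, h1]
      rw [h3] at hn2
      obtain ⟨x0⟩ := hconn.nonempty
      have h4 : 0 < #(univ : Finset V) := Finset.card_pos.2 ⟨x0, Finset.mem_univ _⟩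
      omega
  -- the sets covering the complement of `U`
  set SS : Finset (Finset (Sym2 V)) :=
    G.edgeFinset.powerset.filter (fun S => ∀ x, x ∉ U → ∃ f ∈ S, x ∈ f) with hSS
  have mSS : ∀ S, S ∈ SS ↔ S ⊆ G.edgeFinset ∧ ∀ x, x ∉ U → ∃ f ∈ S, x ∈ f := by
    intro S
    rw [hSS, Finset.mem_filter, Finset.mem_powerset]
  have hblock : ∀ f ∈ G.edgeFinset, (∃ x ∈ I, f ∈ G.incidenceFinset x) ∨
      ∃ e ∈ M, f ∈ B2 e (u e) (a e) (b e) := by
    have hmixed : ∀ p q : V, G.Adj p q → G.degree p = 2 → 3 ≤ G.degree q →
        (∃ x ∈ I, s(p, q) ∈ G.incidenceFinset x) ∨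
        ∃ e ∈ M, s(p, q) ∈ B2 e (u e) (a e) (b e) := by
      intro p q hpq hp hq
      by_cases hpW : p ∈ W
      · right
        obtain ⟨e, he, h1⟩ := (mW p).1 hpW
        refine ⟨e, he, ?_⟩
        rcases h1 with rfl | rfl
        · rw [(htri e he).a_only hpq hq]
          unfold B2
          rw [Sym2.eq_swap]
          simp
        · rw [(htri e he).swap.a_only hpq hq]
          unfold B2
          rw [Sym2.eq_swap]
          simp
      · left
        refine ⟨p, Finset.mem_sdiff.2 ⟨(mV2 p).2 hp, hpW⟩, ?_⟩
        rw [SimpleGraph.mem_incidenceFinset]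
        exact ⟨hpq, by simp⟩
    intro f hf
    rw [SimpleGraph.mem_edgeFinset] at hf
    induction f with
    | _ p q =>
      rw [SimpleGraph.mem_edgeSet] at hf
      by_cases hp : G.degree p = 2
      · by_cases hq : G.degree q = 2
        · right
          obtain ⟨e, he, h1⟩ := hDD s(p, q) ((mem_DD G p q).2 ⟨hf, hp, hq⟩)
          refine ⟨e, he, ?_⟩
          rw [h1]
          simp [B2]
        · exact hmixed p q hf hp (by have := hdeg q; omega)
      · by_cases hq : G.degree q = 2
        · have h1 := hmixed q p hf.symm hq (by have := hdeg p; omega)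
          have h2 : s(q, p) = s(p, q) := Sym2.eq_swap
          rw [h2] at h1
          exact h1
        · right
          have hfM : s(p, q) ∈ M := (mem_MM G p q).2
            ⟨hf, by have := hdeg p; omega, by have := hdeg q; omega⟩
          exact ⟨_, hfM, by simp [B2]⟩
  -- upper bound
  have hle : #SS ≤ 3 ^ T := by
    set P1 : Finset ((x : I) → Finset (Sym2 V)) :=
      Fintype.piFinset (fun x : I => (G.incidenceFinset (x : V)).powerset.erase ∅) with hP1
    set P2 : Finset ((e : M) → Finset (Sym2 V)) :=
      Fintype.piFinset (fun e : M => good (e : Sym2 V) (u e) (a e) (b e)) with hP2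
    have c1 : #P1 = 3 ^ #I := by
      rw [hP1, Fintype.card_piFinset]
      rw [Finset.prod_congr rfl (g := fun _ => 3)]
      · rw [Finset.prod_const, Finset.card_univ, Fintype.card_coe]
      · intro x _
        have h1 : G.degree (x : V) = 2 := (mV2 _).1 (Finset.mem_sdiff.1 x.2).1
        rw [Finset.card_erase_of_mem (Finset.empty_mem_powerset _), Finset.card_powerset,
          SimpleGraph.card_incidenceFinset_eq_degree, h1]
        rfl
    have c2 : #P2 ≤ 9 ^ #M := by
      rw [hP2, Fintype.card_piFinset]
      have h1 : ∏ e : M, #(good (e : Sym2 V) (u e) (a e) (b e)) ≤ ∏ e : M, 9 :=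
        Finset.prod_le_prod' (fun e _ => (htri e e.2).good_card)
      rw [Finset.prod_const, Finset.card_univ, Fintype.card_coe] at h1
      exact h1
    have c3 : #SS ≤ #(P1 ×ˢ P2) := by
      apply Finset.card_le_card_of_injOn (fun S => (fun x : I => S ∩ G.incidenceFinset (x : V),
        fun e : M => S ∩ B2 (e : Sym2 V) (u e) (a e) (b e)))
      · intro S hS
        rw [Finset.mem_coe, mSS] at hS
        obtain ⟨hS1, hS2⟩ := hS
        rw [Finset.mem_coe, Finset.mem_product]
        have hnU : ∀ x, G.degree x = 2 → x ∉ U := by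
          intro x hx hxU
          have := ((mU x).1 hxU).1
          omega
        refine ⟨?_, ?_⟩
        · rw [hP1, Fintype.mem_piFinset]
          intro x
          have h1 : G.degree (x : V) = 2 := (mV2 _).1 (Finset.mem_sdiff.1 x.2).1
          rw [Finset.mem_erase, Finset.mem_powerset]
          refine ⟨?_, Finset.inter_subset_right⟩
          obtain ⟨f, hf, hxf⟩ := hS2 x (hnU x h1)
          apply Finset.Nonempty.ne_empty
          refine ⟨f, Finset.mem_inter.2 ⟨hf, ?_⟩⟩
          rw [SimpleGraph.mem_incidenceFinset]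
          have := hS1 hf
          rw [SimpleGraph.mem_edgeFinset] at this
          exact ⟨this, hxf⟩
        · rw [hP2, Fintype.mem_piFinset]
          intro e
          have ht := htri e e.2
          rw [good, Finset.mem_filter, Finset.mem_powerset]
          refine ⟨Finset.inter_subset_right, ?_, ?_, ?_⟩
          · obtain ⟨f, hf, hxf⟩ := hS2 _ (hnU _ ht.da)
            refine ⟨f, Finset.mem_inter.2 ⟨hf, ?_⟩, hxf⟩
            have h1 := hS1 hf
            rw [SimpleGraph.mem_edgeFinset] at h1
            obtain ⟨y, rfl⟩ := hxf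
            rw [SimpleGraph.mem_edgeSet] at h1
            unfold B2
            rcases ht.na h1 with h2 | h2
            · rw [h2, Sym2.eq_swap]; simp
            · rw [h2]; simp
          · obtain ⟨f, hf, hxf⟩ := hS2 _ (hnU _ ht.db)
            refine ⟨f, Finset.mem_inter.2 ⟨hf, ?_⟩, hxf⟩
            have h1 := hS1 hf
            rw [SimpleGraph.mem_edgeFinset] at h1
            obtain ⟨y, rfl⟩ := hxf
            rw [SimpleGraph.mem_edgeSet] at h1
            unfold B2
            rcases ht.nb h1 with h2 | h2
            · rw [h2, Sym2.eq_swap]; simp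
            · rw [h2, Sym2.eq_swap]; simp
          · obtain ⟨f, hf, hxf⟩ := hS2 (u e) (by
              intro h
              exact ((mU _).1 h).2 e e.2 rfl)
            refine ⟨f, Finset.mem_inter.2 ⟨hf, ?_⟩, hxf⟩
            have h1 := hS1 hf
            rw [SimpleGraph.mem_edgeFinset] at h1
            obtain ⟨y, rfl⟩ := hxf
            rw [SimpleGraph.mem_edgeSet] at h1
            unfold B2
            rcases ht.nu h1 with h2 | h2 | h2
            · rw [h2, ← ht.eq]; simp
            · rw [h2]; simp
            · rw [h2]; simp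
      · intro S hS S' hS' heq
        rw [Finset.mem_coe, mSS] at hS hS'
        simp only [Prod.mk.injEq] at heq
        obtain ⟨q1, q2⟩ := heq
        have key : ∀ f ∈ G.edgeFinset, f ∈ S ↔ f ∈ S' := by
          intro f hf
          rcases hblock f hf with ⟨x, hx, h1⟩ | ⟨e, he, h1⟩
          · have h2 := congrFun q1 ⟨x, hx⟩
            simp only at h2
            have h3 : f ∈ S ∩ G.incidenceFinset x ↔ f ∈ S' ∩ G.incidenceFinset x := by rw [h2]
            rw [Finset.mem_inter, Finset.mem_inter] at h3
            exact ⟨fun h4 => (h3.1 ⟨h4, h1⟩).1, fun h4 => (h3.2 ⟨h4, h1⟩).1⟩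
          · have h2 := congrFun q2 ⟨e, he⟩
            simp only at h2
            have h3 : f ∈ S ∩ B2 e (u e) (a e) (b e) ↔ f ∈ S' ∩ B2 e (u e) (a e) (b e) := by
              rw [h2]
            rw [Finset.mem_inter, Finset.mem_inter] at h3
            exact ⟨fun h4 => (h3.1 ⟨h4, h1⟩).1, fun h4 => (h3.2 ⟨h4, h1⟩).1⟩
        ext f
        constructor
        · intro hf
          exact (key f (hS.1 hf)).1 hf
        · intro hf
          exact (key f (hS'.1 hf)).2 hf
    rw [Finset.card_product] at c3
    calc #SS ≤ #P1 * #P2 := c3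
      _ ≤ 3 ^ #I * 9 ^ #M := by rw [c1]; exact Nat.mul_le_mul_left _ c2
      _ = 3 ^ T := by
        rw [← hIcard, pow_add, pow_mul]
        norm_num
  -- a set which is not an edge cover
  obtain ⟨w, hw⟩ := hUne
  refine lt_of_lt_of_le (Finset.card_lt_card ?_) hle
  rw [Finset.ssubset_iff_of_subset]
  · refine ⟨G.edgeFinset.filter (fun f => w ∉ f), (mSS _).2 ⟨Finset.filter_subset _ _, ?_⟩, ?_⟩
    · intro x hx
      have hxw : x ≠ w := by
        rintro rfl
        exact hx hw
      have h1 : 1 ≤ #((G.neighborFinset x).erase w) := by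
        have h2 := Finset.pred_card_le_card_erase (s := G.neighborFinset x) (a := w)
        rw [SimpleGraph.card_neighborFinset_eq_degree] at h2
        have := hdeg x
        omega
      obtain ⟨y, hy⟩ := Finset.card_pos.1 h1
      rw [Finset.mem_erase, SimpleGraph.mem_neighborFinset] at hy
      refine ⟨s(x, y), ?_, by simp⟩
      rw [Finset.mem_filter, SimpleGraph.mem_edgeFinset, SimpleGraph.mem_edgeSet, Sym2.mem_iff]
      refine ⟨hy.2, ?_⟩
      rintro (h | h)
      · exact hxw h.symm
      · exact hy.1 h.symm
    · intro h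
      rw [Finset.mem_filter] at h
      obtain ⟨f, hf, hwf⟩ := h.2 w
      exact (Finset.mem_filter.1 hf).2 hwf
  · intro S hS
    rw [Finset.mem_filter, Finset.mem_powerset] at hS
    exact (mSS S).2 ⟨hS.1, fun x _ => hS.2 x⟩

end

end Pool.Agent.T6.H11.EC
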