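import Pool.Agent.T6.H11.EC.Poly

/-!
# At least three distinct roots
-/

set_option autoImplicit false
set_option linter.unusedSectionVars false

namespace Pool.Agent.T6.H11.EC

open Finset Polynomial
open Pool.Agent.Results.MP_a87573_co.DistinctRoots

section
variable {V : Type} [Fintype V] [DecidableEq V] (G : SimpleGraph V) [DecidableRel G.Adj]

theorem edges_ge (x0 : V) : G.minDegree ≤ #G.edgeFinset := by
  have := card_away_add G {x0} (singleton_nonempty _)
  omega

theorem poly_monic (x0 : V) (hd : 0 < G.minDegree) :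
    (edgeCoverPoly G).Monic ∧ (edgeCoverPoly G).natDegree = #G.edgeFinset := by
  set m := #G.edgeFinset with hm
  have hmδ : G.minDegree ≤ m := edges_ge G x0
  have hlow := natDegree_lower G hmδ
  have hmonic : ((1 + X : ℂ[X]) ^ m).Monic := by
    rw [add_comm]; exact (monic_X_add_C (1 : ℂ)).pow m
  have hdlt : (lower G).degree < ((1 + X : ℂ[X]) ^ m).degree := by
    rw [degree_eq_natDegree hmonic.ne_zero, natDegree_one_add_X_pow]
    refine lt_of_le_of_lt degree_le_natDegree ?_
    exact_mod_cast (by omega : (lower G).natDegree < m)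
  rw [poly_split G]
  constructor
  · exact hmonic.add_of_left hdlt
  · rw [natDegree_eq_of_degree_eq (degree_add_eq_left_of_degree_lt hdlt),
      natDegree_one_add_X_pow]

theorem poly_coeff (k : ℕ) : (edgeCoverPoly G).coeff k =
    (#((G.edgeFinset.powerset.filter IsEdgeCovering).filter (fun S => #S = k)) : ℂ) := by
  rw [poly_eq_sum, Polynomial.finsetSum_coeff]
  simp only [Polynomial.coeff_X_pow]
  rw [Finset.card_filter]
  push_cast
  apply Finset.sum_congr rfl
  intro S _
  by_cases h : #S = k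
  · rw [if_pos h.symm, if_pos h]
  · rw [if_neg (Ne.symm h), if_neg h]

theorem poly_one : (edgeCoverPoly G).eval 1 = (#(G.edgeFinset.powerset.filter IsEdgeCovering) : ℂ) := by
  rw [poly_eq_sum, Polynomial.eval_finsetSum]
  simp

theorem poly_zero (x0 : V) : (edgeCoverPoly G).eval 0 = 0 := by
  rw [poly_eq_sum, eval_finsetSum]
  refine sum_eq_zero fun S hS => ?_
  have hS' := (mem_filter.mp hS).2 x0
  obtain ⟨e, he, -⟩ := hS'
  have : #S ≠ 0 := by
    rw [Ne, card_eq_zero]; rintro rfl; simp at he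
  simp [this]

/-- the form of an edge cover polynomial with at most two distinct roots -/
theorem poly_form (x0 : V) (hd : 2 ≤ G.minDegree)
    (h3 : Set.encard {z : ℂ | (edgeCoverPoly G).eval z = 0} < 3) :
    ∃ (ρ c : ℕ) (r : ℂ), edgeCoverPoly G = X ^ (ρ + 1) * (X - C r) ^ (c + 1) ∧
      (ρ + 1) + (c + 1) = #G.edgeFinset := by
  obtain ⟨hmon, hdeg⟩ := poly_monic G x0 (by omega)
  set E := edgeCoverPoly G with hE
  have hEne : E ≠ 0 := hmon.ne_zero
  have hset : {z : ℂ | E.eval z = 0} = (E.roots.toFinset : Set ℂ) := by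
    ext z
    simp [hEne, IsRoot]
  have h2 : (G.minDegree : ℕ∞) ≤ Set.encard {z : ℂ | E.eval z = 0} := result V G
  rw [hset, Set.encard_coe_eq_coe_finsetCard] at h2 h3
  have h2' : G.minDegree ≤ #E.roots.toFinset := by exact_mod_cast h2
  have h3' : #E.roots.toFinset < 3 := by exact_mod_cast h3
  have hcard : #E.roots.toFinset = 2 := by omega
  have h0 : (0 : ℂ) ∈ E.roots.toFinset := by
    rw [Multiset.mem_toFinset, Polynomial.mem_roots hEne]
    exact poly_zero G x0
  obtain ⟨r, hr0, hr⟩ : ∃ r : ℂ, r ≠ 0 ∧ E.roots.toFinset = {0, r} := by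
    obtain ⟨x, y, hxy, h⟩ := Finset.card_eq_two.1 hcard
    rw [h, Finset.mem_insert, Finset.mem_singleton] at h0
    rcases h0 with h0 | h0
    · exact ⟨y, by rw [h0]; exact hxy.symm, by rw [h, h0]⟩
    · exact ⟨x, by rw [h0]; exact hxy, by rw [h, h0, Finset.pair_comm]⟩
  have hprod : E = (X - C 0) ^ (E.roots.count 0) * (X - C r) ^ (E.roots.count r) := by
    have h4 := (IsAlgClosed.splits E).eq_prod_roots_of_monic hmon
    rw [Finset.prod_multiset_map_count, hr, Finset.prod_pair hr0.symm] at h4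
    exact h4
  have hc0 : 0 < E.roots.count 0 := by
    rw [Multiset.count_pos, ← Multiset.mem_toFinset]
    exact h0
  have hcr : 0 < E.roots.count r := by
    rw [Multiset.count_pos, ← Multiset.mem_toFinset, hr]
    simp
  obtain ⟨ρ, hρ⟩ := Nat.exists_eq_succ_of_ne_zero hc0.ne'
  obtain ⟨c, hc⟩ := Nat.exists_eq_succ_of_ne_zero hcr.ne'
  rw [hρ, hc, C_0, sub_zero] at hprod
  refine ⟨ρ, c, r, hprod, ?_⟩
  rw [← hdeg, hprod, Polynomial.natDegree_mul (pow_ne_zero _ X_ne_zero)
    (pow_ne_zero _ (X_sub_C_ne_zero r)), natDegree_pow, natDegree_pow, natDegree_X,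
    natDegree_X_sub_C]
  simp

variable {G}

/-- the number of edges between vertices of degree two is the number of edges between the other
vertices, if there are half as many vertices of degree two as edges -/
theorem card_DD_MM (hdeg : ∀ x, 2 ≤ G.degree x) (T : ℕ) (hT : #G.edgeFinset = 2 * T)
    (hn2 : #(univ.filter fun x => G.degree x = 2) = T) : #(DD G) = #(MM G) := by
  set V2 : Finset V := univ.filter fun x => G.degree x = 2 with hV2
  have mV2 : ∀ x, x ∈ V2 ↔ G.degree x = 2 := by
    intro x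
    rw [hV2, Finset.mem_filter]
    simp
  have h1 : ∑ x ∈ V2, G.degree x = 2 * T := by
    rw [Finset.sum_congr rfl (fun x hx => (mV2 x).1 hx), Finset.sum_const, smul_eq_mul, hn2,
      mul_comm]
  rw [sum_deg] at h1
  have h2 : ∀ e ∈ G.edgeFinset, cnt V2 e + (if e ∈ MM G then 1 else 0) =
      1 + (if e ∈ DD G then 1 else 0) := by
    intro e he
    induction e with
    | _ x y =>
      rw [SimpleGraph.mem_edgeFinset, SimpleGraph.mem_edgeSet] at he
      rw [cnt_mk V2 x y he.ne]
      simp only [mV2, mem_MM, mem_DD, he, true_and]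
      have hx := hdeg x
      have hy := hdeg y
      by_cases h3 : G.degree x = 2 <;> by_cases h4 : G.degree y = 2
      · simp [h3, h4]
      · have h5 : ¬ (3 ≤ G.degree x ∧ 3 ≤ G.degree y) := by omega
        simp [h3, h4]
      · have h5 : ¬ (3 ≤ G.degree x ∧ 3 ≤ G.degree y) := by omega
        simp [h3, h4]
      · have h5 : (3 ≤ G.degree x ∧ 3 ≤ G.degree y) := by omega
        rw [if_neg h3, if_neg h4, if_pos h5, if_neg (fun h => h3 h.1)]
  have h3 := Finset.sum_congr (s₁ := G.edgeFinset) rfl h2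
  rw [Finset.sum_add_distrib, Finset.sum_add_distrib, ← Finset.sum_filter, ← Finset.sum_filter,
    h1] at h3
  have h4 : G.edgeFinset.filter (fun e => e ∈ MM G) = MM G := by
    ext e
    rw [Finset.mem_filter]
    exact ⟨fun h => h.2, fun h => ⟨(Finset.mem_filter.1 h).1, h⟩⟩
  have h5 : G.edgeFinset.filter (fun e => e ∈ DD G) = DD G := by
    ext e
    rw [Finset.mem_filter]
    exact ⟨fun h => h.2, fun h => ⟨(Finset.mem_filter.1 h).1, h⟩⟩
  rw [h4, h5] at h3
  simp only [Finset.sum_const, smul_eq_mul, mul_one, hT] at h3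
  omega

theorem main (hconn : G.Connected) (hmd : 2 ≤ G.minDegree) (hex : ∃ x, G.degree x = 2)
    (hV : 4 ≤ Fintype.card V) :
    3 ≤ Set.encard {z : ℂ | (edgeCoverPoly G).eval z = 0} := by
  by_contra hcon
  rw [not_le] at hcon
  obtain ⟨x0, hx0⟩ := hex
  have hdeg : ∀ x, 2 ≤ G.degree x := fun x => hmd.trans (G.minDegree_le_degree x)
  obtain ⟨ρ, c, r, hE, hm⟩ := poly_form G x0 hmd hcon
  -- number of edges
  have hsum := G.sum_degrees_eq_twice_card_edges
  have hm4 : 4 ≤ #G.edgeFinset := by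
    have h1 : ∑ x : V, 2 ≤ ∑ x : V, G.degree x := Finset.sum_le_sum (fun x _ => hdeg x)
    rw [Finset.sum_const, smul_eq_mul, Finset.card_univ] at h1
    omega
  obtain ⟨k, hk⟩ : ∃ k, k + 3 = #G.edgeFinset := ⟨#G.edgeFinset - 3, by omega⟩
  set m := #G.edgeFinset with hmdef
  -- the form in terms of `1 + x`
  have hP : PP G = (X - 1) ^ (ρ + 1) * (X - C (1 + r)) ^ (c + 1) := by
    rw [PP_eq, hE]
    simp only [mul_comp, pow_comp, X_comp, sub_comp, C_comp]
    rw [C_add, C_1, sub_sub]
  have hrel := coeff_rel ρ c (1 + r) (PP G) hP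
  set n2 : ℕ := #(univ.filter fun x => G.degree x = 2) with hn2
  set n3 : ℕ := #(univ.filter fun x => G.degree x = 3) with hn3
  have q4 : (PP G).coeff (k + 4) = 0 := coeff_above _ (by omega)
  have q3 : (PP G).coeff (k + 3) = 1 := coeff_zero' hdeg _ (by omega)
  have q2 : (PP G).coeff (k + 2) = 0 := coeff_one' hdeg _ (by omega)
  have q1 : (PP G).coeff (k + 1) = -(n2 : ℂ) := coeff_two' hdeg _ (by omega)
  have q0 : (PP G).coeff k = (#(DD G) : ℂ) - (n3 : ℂ) := coeff_three' hconn hdeg hV _ (by omega)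
  have r2 := hrel (k + 2)
  have r1 := hrel (k + 1)
  have r0 := hrel k
  rw [show k + 2 + 1 = k + 3 from rfl, show k + 2 + 2 = k + 4 from rfl, q2, q3, q4] at r2
  rw [show k + 1 + 1 = k + 2 from rfl, show k + 1 + 2 = k + 3 from rfl, q1, q2, q3] at r1
  rw [q0, q1, q2] at r0
  have hkm : ((k : ℂ) + 3) = (ρ + 1) + (c + 1) := by
    have : k + 3 = (ρ + 1) + (c + 1) := by omega
    exact_mod_cast this
  push_cast at r2 r1 r0
  have hk' : (k : ℂ) = (ρ + 1) + (c + 1) - 3 := by linear_combination hkm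
  have e1 : (c + 1 : ℂ) * (-r) = (ρ + 1) + (c + 1) := by
    rw [hk'] at r2
    linear_combination r2
  have e2 : ((ρ + 1 : ℂ) + (c + 1)) * (1 + r) = -2 * n2 := by
    rw [hk'] at r1
    linear_combination r1
  have e3 : 3 * ((#(DD G) : ℂ) - n3) = -2 * (1 + (1 + r)) * n2 := by
    rw [hk'] at r0
    linear_combination (-1) * r0 + (-1 : ℂ) * n2 * e1
  -- the number of edge covers
  set N : ℕ := #(G.edgeFinset.powerset.filter IsEdgeCovering) with hN
  have hN1 : (1 - r) ^ (c + 1) = (N : ℂ) := by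
    have h1 := poly_one G
    rw [hE] at h1
    simpa using h1
  have hN2 : (c + 1) ^ (c + 1) * N = (c + 1 + m) ^ (c + 1) := by
    have h1 : ((c + 1 : ℂ) ^ (c + 1)) * (N : ℂ) = (c + 1 + m : ℂ) ^ (c + 1) := by
      rw [← hN1, ← mul_pow]
      congr 1
      have h2 : (m : ℂ) = (ρ + 1) + (c + 1) := by rw [← hm]; push_cast; ring
      rw [h2]
      linear_combination e1
    exact_mod_cast h1
  have hdvd : c + 1 ∣ c + 1 + m := by
    rw [← Nat.pow_dvd_pow_iff (Nat.succ_ne_zero c)]
    exact ⟨N, hN2.symm⟩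
  obtain ⟨t, ht⟩ := (Nat.dvd_add_right (dvd_refl (c + 1))).1 hdvd
  have hcne : (c + 1 : ℂ) ≠ 0 := by exact_mod_cast Nat.succ_ne_zero c
  have hr : r = -(t : ℂ) := by
    have h1 : (c + 1 : ℂ) * (-r) = (c + 1) * t := by
      rw [e1]
      have h2 : ((ρ + 1 + (c + 1) : ℕ) : ℂ) = ((c + 1) * t : ℕ) := by rw [hm, ht]
      push_cast at h2
      exact h2
    have h3 := mul_left_cancel₀ hcne h1
    rw [← h3, neg_neg]
  have hn2m : n2 ≤ m := by
    have h1 : ∑ x ∈ univ.filter (fun x => G.degree x = 2), 2 ≤ ∑ x : V, G.degree x := by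
      calc ∑ x ∈ univ.filter (fun x => G.degree x = 2), 2 =
          ∑ x ∈ univ.filter (fun x => G.degree x = 2), G.degree x :=
            Finset.sum_congr rfl (fun x hx => (Finset.mem_filter.1 hx).2.symm)
        _ ≤ ∑ x : V, G.degree x := Finset.sum_le_sum_of_subset (Finset.filter_subset _ _)
    rw [Finset.sum_const, smul_eq_mul, hsum] at h1
    omega
  have hn2pos : 1 ≤ n2 := Finset.card_pos.2 ⟨x0, by simp [hx0]⟩
  have e2' : (m : ℤ) * (t - 1) = 2 * n2 := by
    have h1 : (m : ℂ) * (t - 1) = 2 * n2 := by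
      have h2 : (m : ℂ) = (ρ + 1) + (c + 1) := by rw [← hm]; push_cast; ring
      rw [h2]
      rw [hr] at e2
      linear_combination (-1) * e2
    exact_mod_cast h1
  have ht2 : 2 ≤ t := by
    by_contra h
    have h1 : (t : ℤ) - 1 ≤ 0 := by omega
    have h2 : (m : ℤ) * (t - 1) ≤ 0 := mul_nonpos_of_nonneg_of_nonpos (by positivity) h1
    omega
  have ht3 : t ≤ 3 := by
    by_contra h
    have h1 : (3 : ℤ) ≤ (t : ℤ) - 1 := by omega
    have h2 : (m : ℤ) * 3 ≤ (m : ℤ) * (t - 1) := by
      apply mul_le_mul_of_nonneg_left h1 (by positivity)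
    omega
  -- edge covers have at least `ρ + 1` edges
  have hmin : ∀ C ⊆ G.edgeFinset, (∀ x, ∃ e ∈ C, x ∈ e) → ρ + 1 ≤ #C := by
    intro C hC hcov
    by_contra hlt
    push Not at hlt
    have h1 : (edgeCoverPoly G).coeff #C = 0 := by
      rw [hE, Polynomial.coeff_X_pow_mul', if_neg (by omega)]
    rw [poly_coeff] at h1
    have h2 : #((G.edgeFinset.powerset.filter IsEdgeCovering).filter (fun S => #S = #C)) = 0 := by
      exact_mod_cast h1
    rw [Finset.card_eq_zero] at h2
    have h3 : C ∈ (G.edgeFinset.powerset.filter IsEdgeCovering).filter (fun S => #S = #C) := by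
      rw [Finset.mem_filter, Finset.mem_filter, Finset.mem_powerset]
      exact ⟨⟨hC, hcov⟩, rfl⟩
    rw [h2] at h3
    simp at h3
  rcases Nat.lt_or_ge t 3 with htt | htt
  · -- the main case
    have ht' : t = 2 := by omega
    subst ht'
    have hmT : #G.edgeFinset = 2 * (c + 1) := by rw [← hmdef, ht]; ring
    have hρ : ρ + 1 = c + 1 := by omega
    rw [hρ] at hmin
    have hn2T : #(univ.filter fun x => G.degree x = 2) = c + 1 := by
      rw [← hn2]
      push_cast at e2'
      omega
    have hDM := card_DD_MM hdeg (c + 1) hmT hn2T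
    have hD3 : #(DD G) = n3 := by
      rw [hr] at e3
      have h1 : ((#(DD G) : ℂ)) = n3 := by
        push_cast at e3
        linear_combination e3 / 3
      exact_mod_cast h1
    obtain ⟨u, v, a, b, htri, hDD⟩ := triangles G hconn hdeg (c + 1) hmT hmin hDM hD3
    have hlt := count hconn hdeg (c + 1) hmT hn2T u v a b htri hDD
    have hN3 : N = 3 ^ (c + 1) := by
      have h1 : (c + 1) ^ (c + 1) * N = (c + 1) ^ (c + 1) * 3 ^ (c + 1) := by
        rw [hN2, ← mul_pow]
        congr 1
        rw [hmdef, hmT]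
        ring
      exact Nat.eq_of_mul_eq_mul_left (by positivity) h1
    have hN4 : N = #(G.edgeFinset.powerset.filter (fun S => ∀ x, ∃ e ∈ S, x ∈ e)) := by
      rw [hN]
      congr 1
    omega
  · have ht' : t = 3 := by omega
    subst ht'
    obtain ⟨C, hC, hcov, h1⟩ := half_cover G hconn hdeg
    have h2 := hmin C hC hcov
    omega

end

end Pool.Agent.T6.H11.EC
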