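import Pool.Agent.T6.H11.EC.Tour

/-!
# Small edge covers

A connected graph with all degrees at least two has an edge cover with at most half of the edges,
unless it is an odd cycle.
-/

set_option autoImplicit false
set_option linter.unusedSectionVars false

namespace Pool.Agent.T6.H11.EC

open Finset
open Pool.Agent.R1.Maj (Tour)

section
variable {V : Type} [Fintype V] [DecidableEq V] {G : SimpleGraph V} [DecidableRel G.Adj]
  {m : ℕ} {v : ℕ → V}

theorem tour_rot (T : Tour G m v) (t : ℕ) : Tour G m (fun j => v (j + t)) := by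
  have hper : Function.Periodic v m := T.per
  have hmod : ∀ j, v (j % m) = v j := fun j => hper.map_mod_nat j
  have hmod1 : ∀ j, v (j % m + 1) = v (j + 1) := by
    intro j
    rw [← hmod (j % m + 1), ← hmod (j + 1), Nat.mod_add_mod]
  refine ⟨T.pos, ?_, ?_, ?_, ?_⟩
  · intro j
    show v (j + m + t) = v (j + t)
    rw [show j + m + t = j + t + m by ring, T.per]
  · intro j
    show G.Adj (v (j + t)) (v (j + 1 + t))
    rw [show j + 1 + t = j + t + 1 by ring]
    exact T.adj _
  · intro i hi j hj h
    rw [show i + 1 + t = i + t + 1 by ring, show j + 1 + t = j + t + 1 by ring,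
      ← hmod (i + t), ← hmod (j + t), ← hmod1 (i + t), ← hmod1 (j + t)] at h
    have h1 := T.inj _ (Nat.mod_lt _ T.pos) _ (Nat.mod_lt _ T.pos) h
    have h2 : i ≡ j [MOD m] := Nat.ModEq.add_right_cancel' t h1
    exact Nat.ModEq.eq_of_lt_of_lt h2 hi hj
  · intro e he
    obtain ⟨j, hj, rfl⟩ := T.surj e he
    refine ⟨(j + (m - t % m)) % m, Nat.mod_lt _ T.pos, ?_⟩
    have h1 : ((j + (m - t % m)) % m + t) % m = j := by
      rw [Nat.mod_add_mod]
      have h2 := Nat.mod_lt t T.pos
      have h3 := Nat.mod_add_div t m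
      have h4 : j + (m - t % m) + t = j + m * (1 + t / m) := by
        have h5 : m * (1 + t / m) = m + m * (t / m) := by ring
        rw [h5]
        omega
      rw [h4, Nat.add_mul_mod_self_left, Nat.mod_eq_of_lt hj]
    rw [show (j + (m - t % m)) % m + 1 + t = (j + (m - t % m)) % m + t + 1 by ring,
      ← hmod1 ((j + (m - t % m)) % m + t), ← hmod ((j + (m - t % m)) % m + t), h1]

theorem tour_card (T : Tour G m v) : #G.edgeFinset = m := by
  rw [T.edges, Finset.card_image_of_injOn, Finset.card_range]
  intro i hi j hj h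
  rw [Finset.mem_coe, Finset.mem_range] at hi hj
  exact T.inj i hi j hj h

theorem tour_pos (T : Tour G m v) (x : V) (hd : 2 ≤ G.degree x) :
    ∃ q < m, v (q + 1) = x := by
  by_contra hcon
  push Not at hcon
  have h := T.degree x
  have h2 : ∑ q ∈ range m, (if v (q + 1) = x then (1 : ℤ) else 0) = 0 := by
    apply Finset.sum_eq_zero
    intro q hq
    rw [if_neg (hcon q (Finset.mem_range.1 hq))]
  rw [h2] at h
  omega

theorem tour_two (T : Tour G m v) (x : V) (hd : 4 ≤ G.degree x) :
    ∃ q < m, ∃ q' < m, q ≠ q' ∧ v (q + 1) = x ∧ v (q' + 1) = x := by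
  have h := T.degree x
  rw [Finset.sum_boole] at h
  have h1 : 1 < #{q ∈ range m | v (q + 1) = x} := by
    have : (#{q ∈ range m | v (q + 1) = x} : ℤ) = (#{q ∈ range m | v (q + 1) = x} : ℤ) := rfl
    omega
  obtain ⟨q, hq, q', hq', hne⟩ := Finset.one_lt_card.1 h1
  rw [Finset.mem_filter, Finset.mem_range] at hq hq'
  exact ⟨q, hq.1, q', hq'.1, hne, hq.2, hq'.2⟩

theorem small_of_two (C0 C1 : Finset (Sym2 V)) (h0 : C0 ⊆ G.edgeFinset) (h1 : C1 ⊆ G.edgeFinset)
    (hd : Disjoint C0 C1) (c0 : ∀ x, ∃ e ∈ C0, x ∈ e) (c1 : ∀ x, ∃ e ∈ C1, x ∈ e) :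
    ∃ C ⊆ G.edgeFinset, (∀ x, ∃ e ∈ C, x ∈ e) ∧ 2 * #C ≤ #G.edgeFinset := by
  have h : #C0 + #C1 ≤ #G.edgeFinset := by
    rw [← Finset.card_union_of_disjoint hd]
    exact Finset.card_le_card (Finset.union_subset h0 h1)
  by_cases hle : #C0 ≤ #C1
  · exact ⟨C0, h0, c0, by omega⟩
  · exact ⟨C1, h1, c1, by omega⟩

/-- the edges with even (odd) number -/
def cls (m : ℕ) (v : ℕ → V) (r : ℕ) : Finset (Sym2 V) :=
  ((range m).filter (fun j => j % 2 = r)).image (fun j => s(v j, v (j + 1)))

theorem cls_sub (T : Tour G m v) (r : ℕ) : cls m v r ⊆ G.edgeFinset := by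
  intro e he
  unfold cls at he
  rw [Finset.mem_image] at he
  obtain ⟨j, _, rfl⟩ := he
  rw [SimpleGraph.mem_edgeFinset]
  exact T.adj j

theorem cls_disj (T : Tour G m v) : Disjoint (cls m v 0) (cls m v 1) := by
  rw [Finset.disjoint_left]
  intro e he he'
  unfold cls at he he'
  rw [Finset.mem_image] at he he'
  obtain ⟨i, hi, rfl⟩ := he
  obtain ⟨j, hj, h⟩ := he'
  rw [Finset.mem_filter, Finset.mem_range] at hi hj
  have := T.inj j hj.1 i hi.1 h
  omega

theorem mem_cls {m : ℕ} {v : ℕ → V} (r j : ℕ) (hj : j < m) (h : j % 2 = r) :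
    s(v j, v (j + 1)) ∈ cls m v r := by
  unfold cls
  rw [Finset.mem_image]
  exact ⟨j, Finset.mem_filter.2 ⟨Finset.mem_range.2 hj, h⟩, rfl⟩

theorem cls_cov (j r : ℕ) (hr : r < 2) (hj0 : j + 1 < m) :
    ∃ e ∈ cls m v r, v (j + 1) ∈ e := by
  by_cases h : j % 2 = r
  · exact ⟨_, mem_cls r j (by omega) h, by simp⟩
  · exact ⟨_, mem_cls r (j + 1) hj0 (by omega), by simp⟩

end

theorem half_even {V : Type} [Fintype V] [DecidableEq V] (G : SimpleGraph V) [DecidableRel G.Adj]
    (hconn : G.Connected) (hdeg : ∀ x, 2 ≤ G.degree x) (hev : ∀ x, Even (G.degree x)) :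
    ∃ C ⊆ G.edgeFinset, (∀ x, ∃ e ∈ C, x ∈ e) ∧ (2 * #C ≤ #G.edgeFinset ∨
      ((∀ x, G.degree x = 2) ∧ Odd #G.edgeFinset ∧ 2 * #C ≤ #G.edgeFinset + 1)) := by
  obtain ⟨x0⟩ := hconn.nonempty
  have hne : G.edgeSet.Nonempty := by
    have h := hdeg x0
    have : 0 < #(G.neighborFinset x0) := by
      rw [SimpleGraph.card_neighborFinset_eq_degree]; omega
    obtain ⟨y, hy⟩ := Finset.card_pos.1 this
    rw [SimpleGraph.mem_neighborFinset] at hy
    exact ⟨s(x0, y), hy⟩
  obtain ⟨m, v, T⟩ := exists_tour G hconn hne hev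
  by_cases h4 : ∃ w, 4 ≤ G.degree w
  · obtain ⟨w, hw⟩ := h4
    obtain ⟨q, hq, hqw⟩ := tour_pos T w (hdeg w)
    have T' := tour_rot T (q + 1)
    set v' : ℕ → V := fun j => v (j + (q + 1)) with hv'
    have h0 : v' 0 = w := by
      rw [hv']; simp only [Nat.zero_add]; exact hqw
    have key : ∀ x, ∃ j, j + 1 < m ∧ v' (j + 1) = x := by
      intro x
      by_cases hx : x = w
      · obtain ⟨q1, h1, q2, h2, hne, e1, e2⟩ := tour_two T' x (hx ▸ hw)
        by_cases h3 : q1 + 1 < m
        · exact ⟨q1, h3, e1⟩
        · exact ⟨q2, by omega, e2⟩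
      · obtain ⟨q1, h1, e1⟩ := tour_pos T' x (hdeg x)
        refine ⟨q1, ?_, e1⟩
        by_contra hcon
        have : q1 + 1 = 0 + m := by omega
        rw [this, T'.per, h0] at e1
        exact hx e1.symm
    obtain ⟨C, hC, hc, hcard⟩ := small_of_two (cls m v' 0) (cls m v' 1) (cls_sub T' 0)
      (cls_sub T' 1) (cls_disj T') (fun x => by
        obtain ⟨j, hj, rfl⟩ := key x
        exact cls_cov j 0 (by norm_num) hj) (fun x => by
        obtain ⟨j, hj, rfl⟩ := key x
        exact cls_cov j 1 (by norm_num) hj)
    exact ⟨C, hC, hc, Or.inl hcard⟩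
  · push Not at h4
    have h2 : ∀ x, G.degree x = 2 := by
      intro x
      have h5 := h4 x
      have h6 := hdeg x
      obtain ⟨k, hk⟩ := hev x
      omega
    have hm := tour_card T
    have hpos := T.pos
    have key : ∀ x, x ≠ v 0 → ∃ j, j + 1 < m ∧ v (j + 1) = x := by
      intro x hx
      obtain ⟨q1, h1, e1⟩ := tour_pos T x (hdeg x)
      refine ⟨q1, ?_, e1⟩
      by_contra hcon
      have : q1 + 1 = 0 + m := by omega
      rw [this, T.per] at e1
      exact hx e1.symm
    rcases Nat.even_or_odd m with hme | hmo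
    · obtain ⟨k, hk⟩ := hme
      obtain ⟨C, hC, hc, hcard⟩ := small_of_two (cls m v 0) (cls m v 1) (cls_sub T 0)
        (cls_sub T 1) (cls_disj T) (fun x => by
          by_cases hx : x = v 0
          · refine ⟨_, mem_cls 0 0 hpos rfl, ?_⟩
            rw [hx]; simp
          · obtain ⟨j, hj, rfl⟩ := key x hx
            exact cls_cov j 0 (by norm_num) hj) (fun x => by
          by_cases hx : x = v 0
          · refine ⟨_, mem_cls 1 (m - 1) (by omega) (by omega), ?_⟩
            rw [hx, show m - 1 + 1 = 0 + m by omega, T.per]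
            simp
          · obtain ⟨j, hj, rfl⟩ := key x hx
            exact cls_cov j 1 (by norm_num) hj)
      exact ⟨C, hC, hc, Or.inl hcard⟩
    · refine ⟨insert s(v 0, v 1) (cls m v 1), ?_, ?_, Or.inr ⟨h2, hm ▸ hmo, ?_⟩⟩
      · intro e he
        rw [Finset.mem_insert] at he
        rcases he with rfl | he
        · rw [SimpleGraph.mem_edgeFinset]
          exact T.adj 0
        · exact cls_sub T 1 he
      · intro x
        by_cases hx : x = v 0
        · exact ⟨_, Finset.mem_insert_self _ _, by rw [hx]; simp⟩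
        · obtain ⟨j, hj, rfl⟩ := key x hx
          obtain ⟨e, he, h⟩ := cls_cov (m := m) (v := v) j 1 (by norm_num) hj
          exact ⟨e, Finset.mem_insert_of_mem he, h⟩
      · have h5 : #(cls m v 1) ≤ #((range m).filter (fun j => j % 2 = 1)) := Finset.card_image_le
        have h6 : #((range m).filter (fun j => j % 2 = 1)) ≤ m / 2 := by
          have h7 : (range m).filter (fun j => j % 2 = 1) ⊆ (range (m / 2)).image (fun i => 2 * i + 1) := by
            intro j hj
            rw [Finset.mem_filter, Finset.mem_range] at hj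
            rw [Finset.mem_image]
            refine ⟨j / 2, Finset.mem_range.2 ?_, by omega⟩
            obtain ⟨k, hk⟩ := hmo
            omega
          exact (Finset.card_le_card h7).trans (Finset.card_image_le.trans (by simp))
        have h8 := Finset.card_insert_le s(v 0, v 1) (cls m v 1)
        obtain ⟨k, hk⟩ := hmo
        rw [hm]
        omega

/-- the graph with a new vertex joined to the vertices of odd degree -/
def star {V : Type} [Fintype V] [DecidableEq V] (G : SimpleGraph V) [DecidableRel G.Adj] :
    SimpleGraph (Option V) where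
  Adj p q := match p, q with
    | some x, some y => G.Adj x y
    | some x, none => Odd (G.degree x)
    | none, some x => Odd (G.degree x)
    | none, none => False
  symm := ⟨by
    intro p q h
    rcases p with _ | x <;> rcases q with _ | y
    · exact h
    · exact h
    · exact h
    · exact SimpleGraph.Adj.symm h⟩
  loopless := ⟨by
    intro p h
    rcases p with _ | x
    · exact h
    · exact G.loopless.irrefl x h⟩

section
variable {V : Type} [Fintype V] [DecidableEq V] (G : SimpleGraph V) [DecidableRel G.Adj]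

theorem star_some (x y : V) : (star G).Adj (some x) (some y) ↔ G.Adj x y := Iff.rfl

theorem star_none (x : V) : (star G).Adj (some x) none ↔ Odd (G.degree x) := Iff.rfl

theorem star_none' (x : V) : (star G).Adj none (some x) ↔ Odd (G.degree x) := Iff.rfl

open Classical in
theorem star_degree (x : V) :
    (star G).degree (some x) = G.degree x + (if Odd (G.degree x) then 1 else 0) := by
  rw [← SimpleGraph.card_neighborFinset_eq_degree]
  have h : (star G).neighborFinset (some x) = (G.neighborFinset x).image some ∪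
      (if Odd (G.degree x) then {none} else ∅) := by
    ext p
    rw [SimpleGraph.mem_neighborFinset, Finset.mem_union, Finset.mem_image]
    rcases p with _ | y
    · rw [star_none]
      by_cases h : Odd (G.degree x) <;> simp [h]
    · rw [star_some]
      by_cases h : Odd (G.degree x) <;> simp [h, SimpleGraph.mem_neighborFinset]
  rw [h, Finset.card_union_of_disjoint, Finset.card_image_of_injective _ (Option.some_injective V),
    SimpleGraph.card_neighborFinset_eq_degree]
  · by_cases h : Odd (G.degree x) <;> simp [h]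
  · rw [Finset.disjoint_left]
    intro p hp hp'
    rw [Finset.mem_image] at hp
    obtain ⟨y, _, rfl⟩ := hp
    by_cases h : Odd (G.degree x) <;> simp [h] at hp'

open Classical in
theorem star_degree_none :
    (star G).degree none = #(univ.filter fun x => Odd (G.degree x)) := by
  rw [← SimpleGraph.card_neighborFinset_eq_degree]
  have h : (star G).neighborFinset none = (univ.filter fun x => Odd (G.degree x)).image some := by
    ext p
    rw [SimpleGraph.mem_neighborFinset, Finset.mem_image]
    rcases p with _ | y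
    · simp
    · rw [star_none']
      simp
  rw [h, Finset.card_image_of_injective _ (Option.some_injective V)]

end

open Classical in
theorem half_odd {V : Type} [Fintype V] [DecidableEq V] (G : SimpleGraph V) [DecidableRel G.Adj]
    (hconn : G.Connected) (hdeg : ∀ x, 2 ≤ G.degree x) (hodd : ∃ x, Odd (G.degree x)) :
    ∃ C ⊆ G.edgeFinset, (∀ x, ∃ e ∈ C, x ∈ e) ∧ 2 * #C ≤ #G.edgeFinset := by
  obtain ⟨x0, hx0⟩ := hodd
  have hconn' : (star G).Connected := by
    have h1 : ∀ x y, G.Reachable x y → (star G).Reachable (some x) (some y) := by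
      rintro x y ⟨w⟩
      induction w with
      | nil => exact SimpleGraph.Reachable.refl _
      | cons h _ ih =>
        exact (SimpleGraph.Adj.reachable ((star_some G _ _).2 h)).trans ih
    have h2 : ∀ p, (star G).Reachable (some x0) p := by
      intro p
      rcases p with _ | y
      · exact SimpleGraph.Adj.reachable ((star_none G x0).2 hx0)
      · exact h1 x0 y (hconn.preconnected x0 y)
    exact ⟨fun p q => (h2 p).symm.trans (h2 q)⟩
  have hev : ∀ p, Even ((star G).degree p) := by
    intro p
    rcases p with _ | x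
    · rw [star_degree_none]
      have := G.even_card_odd_degree_vertices
      convert this
    · rw [star_degree]
      by_cases h : Odd (G.degree x)
      · rw [if_pos h]
        exact h.add_one
      · rw [if_neg h, add_zero]
        exact Nat.not_odd_iff_even.1 h
  have hne : (star G).edgeSet.Nonempty := ⟨s(some x0, none), hx0⟩
  obtain ⟨m, v, T⟩ := exists_tour (star G) hconn' hne hev
  -- start at `none`
  have hstart : ∃ q < m, v (q + 1) = none := by
    apply tour_pos T none
    have h1 := hev none
    have h2 : 0 < (star G).degree none := by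
      rw [star_degree_none]
      exact Finset.card_pos.2 ⟨x0, by simp [hx0]⟩
    obtain ⟨k, hk⟩ := h1
    omega
  obtain ⟨q, hq, hqw⟩ := hstart
  have T' := tour_rot T (q + 1)
  set v' : ℕ → Option V := fun j => v (j + (q + 1)) with hv'
  have h0 : v' 0 = none := by
    rw [hv']; simp only [Nat.zero_add]; exact hqw
  have hm : v' m = none := by
    have := T'.per 0
    rw [Nat.zero_add] at this
    rw [this, h0]
  clear_value v'
  clear T hqw hv'
  have hlt : ∀ (q : ℕ) (x : V), q < m → v' (q + 1) = some x → q + 1 < m := by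
    intro q x h1 h2
    by_contra hcon
    have : q + 1 = m := by omega
    rw [this, hm] at h2
    cases h2
  -- a good passage
  have key : ∀ x, ∃ j, j + 1 < m ∧ v' (j + 1) = some x ∧ (∃ y, v' j = some y) ∧
      ∃ z, v' (j + 2) = some z := by
    intro x
    by_cases hx : Odd (G.degree x)
    · have h3 : 3 ≤ G.degree x := by
        have := hdeg x
        obtain ⟨k, hk⟩ := hx
        omega
      have h4 : 4 ≤ (star G).degree (some x) := by
        rw [star_degree, if_pos hx]; omega
      obtain ⟨q1, h1, q2, h2, hne, e1, e2⟩ := tour_two T' (some x) h4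
      have l1 := hlt q1 x h1 e1
      have l2 := hlt q2 x h2 e2
      by_contra hcon
      push Not at hcon
      have b1 : v' q1 = none ∨ v' (q1 + 2) = none := by
        rcases h5 : v' q1 with _ | y
        · exact Or.inl rfl
        · right
          have h6 := hcon q1 l1 e1 ⟨y, h5⟩
          rcases h7 : v' (q1 + 2) with _ | z
          · rfl
          · exact absurd h7 (h6 z)
      have b2 : v' q2 = none ∨ v' (q2 + 2) = none := by
        rcases h5 : v' q2 with _ | y
        · exact Or.inl rfl
        · right
          have h6 := hcon q2 l2 e2 ⟨y, h5⟩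
          rcases h7 : v' (q2 + 2) with _ | z
          · rfl
          · exact absurd h7 (h6 z)
      rcases b1 with b1 | b1 <;> rcases b2 with b2 | b2
      · exact hne (T'.inj q1 h1 q2 h2 (by rw [b1, b2, e1, e2]))
      · have := T'.inj q1 h1 (q2 + 1) l2 (by rw [b1, e1, e2, b2, Sym2.eq_swap])
        rw [this, e2] at b1
        cases b1
      · have := T'.inj (q1 + 1) l1 q2 h2 (by rw [b2, e2, e1, b1, Sym2.eq_swap])
        rw [← this, e1] at b2
        cases b2
      · have := T'.inj (q1 + 1) l1 (q2 + 1) l2 (by rw [e1, e2, b1, b2])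
        omega
    · obtain ⟨q1, h1, e1⟩ := tour_pos T' (some x) (by
        rw [star_degree]; have := hdeg x; omega)
      refine ⟨q1, hlt q1 x h1 e1, e1, ?_, ?_⟩
      · rcases h5 : v' q1 with _ | y
        · have h6 := T'.adj q1
          rw [h5, e1, star_none'] at h6
          exact absurd h6 hx
        · exact ⟨y, rfl⟩
      · rcases h5 : v' (q1 + 2) with _ | y
        · have h6 := T'.adj (q1 + 1)
          rw [e1, h5, star_none] at h6
          exact absurd h6 hx
        · exact ⟨y, rfl⟩
  -- the two classes
  set D : ℕ → Finset (Sym2 V) := fun r =>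
    G.edgeFinset.filter (fun e => e.map some ∈ cls m v' r) with hD
  have hcov : ∀ r < 2, ∀ x, ∃ e ∈ D r, x ∈ e := by
    intro r hr x
    obtain ⟨j, hj, e1, ⟨y, hy⟩, ⟨z, hz⟩⟩ := key x
    by_cases h : j % 2 = r
    · refine ⟨s(y, x), ?_, by simp⟩
      rw [hD, Finset.mem_filter, SimpleGraph.mem_edgeFinset]
      constructor
      · have h6 := T'.adj j
        rw [hy, e1, star_some] at h6
        exact h6
      · have h7 : s(v' j, v' (j + 1)) ∈ cls m v' r := mem_cls r j (by omega) h
        rw [hy, e1] at h7
        exact h7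
    · refine ⟨s(x, z), ?_, by simp⟩
      rw [hD, Finset.mem_filter, SimpleGraph.mem_edgeFinset]
      constructor
      · have h6 := T'.adj (j + 1)
        rw [hz, e1, star_some] at h6
        exact h6
      · have h7 : s(v' (j + 1), v' (j + 2)) ∈ cls m v' r := mem_cls r (j + 1) hj (by omega)
        rw [hz, e1] at h7
        exact h7
  apply small_of_two (D 0) (D 1) (Finset.filter_subset _ _) (Finset.filter_subset _ _) _
    (hcov 0 (by norm_num)) (hcov 1 (by norm_num))
  rw [Finset.disjoint_left]
  intro e he he'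
  rw [hD, Finset.mem_filter] at he he'
  exact (Finset.disjoint_left.1 (cls_disj T')) he.2 he'.2

/-- A connected graph with all degrees at least two has an edge cover with at most half of the
edges, unless it is an odd cycle. -/
theorem half_cover {V : Type} [Fintype V] [DecidableEq V] (G : SimpleGraph V) [DecidableRel G.Adj]
    (hconn : G.Connected) (hdeg : ∀ x, 2 ≤ G.degree x) :
    ∃ C ⊆ G.edgeFinset, (∀ x, ∃ e ∈ C, x ∈ e) ∧ (2 * #C ≤ #G.edgeFinset ∨
      ((∀ x, G.degree x = 2) ∧ Odd #G.edgeFinset ∧ 2 * #C ≤ #G.edgeFinset + 1)) := by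
  by_cases h : ∃ x, Odd (G.degree x)
  · obtain ⟨C, h1, h2, h3⟩ := half_odd G hconn hdeg h
    exact ⟨C, h1, h2, Or.inl h3⟩
  · push Not at h
    exact half_even G hconn hdeg (fun x => Nat.not_odd_iff_even.1 (h x))

end Pool.Agent.T6.H11.EC
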