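import Pool.Agent.Results.MP_a87573_co.DistinctRoots
import Pool.Agent.T6.H11.EC.Count

/-!
# Edge cover polynomials with two roots

Coefficients of `E(G, x)` in powers of `1 + x`, and the consequences for a graph of minimum degree
at least two whose edge cover polynomial has at most two distinct roots.
-/

set_option autoImplicit false
set_option linter.unusedSectionVars false

namespace Pool.Agent.T6.H11.EC

open Finset Polynomial
open Pool.Agent.Results.MP_a87573_co.DistinctRoots

section
variable {V : Type} [Fintype V] [DecidableEq V] (G : SimpleGraph V) [DecidableRel G.Adj]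

/-- the edges touching `A` -/
def touch (A : Finset V) : Finset (Sym2 V) := {e ∈ G.edgeFinset | ∃ v ∈ A, v ∈ e}

theorem away_touch (A : Finset V) : #(away G A) + #(touch G A) = #G.edgeFinset := by
  unfold away touch
  rw [← Finset.card_filter_add_card_filter_not (s := G.edgeFinset) (fun e => ∀ v ∈ A, v ∉ e)]
  congr 2
  ext e
  simp only [Finset.mem_filter]
  push Not
  rfl

/-- number of elements of `A` on `e` -/
def cnt (A : Finset V) (e : Sym2 V) : ℕ := #(A.filter (fun x => x ∈ e))

theorem sum_deg (A : Finset V) : ∑ x ∈ A, G.degree x = ∑ e ∈ G.edgeFinset, cnt A e := by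
  unfold cnt
  simp_rw [Finset.card_filter]
  rw [Finset.sum_comm]
  apply Finset.sum_congr rfl
  intro x _
  rw [← Finset.card_filter, ← SimpleGraph.card_incidenceFinset_eq_degree,
    SimpleGraph.incidenceFinset_eq_filter]

theorem cnt_mk (A : Finset V) (x y : V) (h : x ≠ y) :
    cnt A s(x, y) = (if x ∈ A then 1 else 0) + (if y ∈ A then 1 else 0) := by
  unfold cnt
  have h1 : A.filter (fun z => z ∈ s(x, y)) = (A.filter (fun z => z = x)) ∪
      (A.filter (fun z => z = y)) := by
    ext z
    simp only [Finset.mem_filter, Finset.mem_union, Sym2.mem_iff]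
    tauto
  rw [h1, Finset.card_union_of_disjoint, Finset.filter_eq', Finset.filter_eq']
  · congr 1
    · by_cases hx : x ∈ A <;> simp [hx]
    · by_cases hx : y ∈ A <;> simp [hx]
  · rw [Finset.disjoint_left]
    intro z hz hz'
    rw [Finset.mem_filter] at hz hz'
    exact h (hz.2.symm.trans hz'.2)

theorem cnt_le (A : Finset V) (e : Sym2 V) (he : e ∈ G.edgeFinset) :
    cnt A e ≤ if e ∈ touch G A then 2 else 0 := by
  induction e with
  | _ x y =>
    have he' := he
    rw [SimpleGraph.mem_edgeFinset, SimpleGraph.mem_edgeSet] at he'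
    rw [cnt_mk A x y he'.ne]
    by_cases h : s(x, y) ∈ touch G A
    · rw [if_pos h]
      split_ifs <;> omega
    · rw [if_neg h]
      unfold touch at h
      rw [Finset.mem_filter] at h
      push Not at h
      have h1 := h he
      rw [if_neg (fun hx => h1 x hx (by simp)), if_neg (fun hx => h1 y hx (by simp))]

theorem sum_deg_le (A : Finset V) : ∑ x ∈ A, G.degree x ≤ 2 * #(touch G A) := by
  rw [sum_deg]
  calc ∑ e ∈ G.edgeFinset, cnt A e ≤ ∑ e ∈ G.edgeFinset, (if e ∈ touch G A then 2 else 0) :=
        Finset.sum_le_sum (fun e he => cnt_le G A e he)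
    _ = ∑ e ∈ G.edgeFinset.filter (fun e => e ∈ touch G A), 2 := by rw [Finset.sum_filter]
    _ ≤ 2 * #(touch G A) := by
      rw [Finset.sum_const, smul_eq_mul, mul_comm]
      apply Nat.mul_le_mul_left
      apply Finset.card_le_card
      intro e he
      exact (Finset.mem_filter.1 he).2

theorem card_le_touch (hdeg : ∀ x, 2 ≤ G.degree x) (A : Finset V) : #A ≤ #(touch G A) := by
  have h1 := sum_deg_le G A
  have h2 : ∑ x ∈ A, 2 ≤ ∑ x ∈ A, G.degree x := Finset.sum_le_sum (fun x _ => hdeg x)
  rw [Finset.sum_const, smul_eq_mul] at h2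
  omega

theorem touch_singleton (x : V) : #(touch G {x}) = G.degree x := by
  rw [← SimpleGraph.card_incidenceFinset_eq_degree, SimpleGraph.incidenceFinset_eq_filter]
  unfold touch
  congr 1
  ext e
  simp

theorem touch_pair (x y : V) (hxy : x ≠ y) :
    #(touch G {x, y}) + (if G.Adj x y then 1 else 0) = G.degree x + G.degree y := by
  have h1 : touch G {x, y} = G.incidenceFinset x ∪ G.incidenceFinset y := by
    ext e
    unfold touch
    rw [Finset.mem_filter, Finset.mem_union, SimpleGraph.incidenceFinset_eq_filter,
      SimpleGraph.incidenceFinset_eq_filter, Finset.mem_filter, Finset.mem_filter]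
    simp only [Finset.mem_insert, Finset.mem_singleton, exists_eq_or_imp, exists_eq_left]
    tauto
  have h2 : G.incidenceFinset x ∩ G.incidenceFinset y = if G.Adj x y then {s(x, y)} else ∅ := by
    ext e
    rw [Finset.mem_inter, SimpleGraph.incidenceFinset_eq_filter,
      SimpleGraph.incidenceFinset_eq_filter, Finset.mem_filter, Finset.mem_filter]
    constructor
    · rintro ⟨⟨h1, h2⟩, ⟨_, h3⟩⟩
      have h4 : e = s(x, y) := (Sym2.mem_and_mem_iff hxy).1 ⟨h2, h3⟩
      rw [h4, SimpleGraph.mem_edgeFinset, SimpleGraph.mem_edgeSet] at h1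
      rw [if_pos h1, h4]
      simp
    · intro h
      by_cases hadj : G.Adj x y
      · rw [if_pos hadj, Finset.mem_singleton] at h
        rw [h, SimpleGraph.mem_edgeFinset, SimpleGraph.mem_edgeSet]
        simp [hadj]
      · rw [if_neg hadj] at h
        simp at h
  have h3 : #(G.incidenceFinset x ∩ G.incidenceFinset y) = if G.Adj x y then 1 else 0 := by
    rw [h2]
    split_ifs <;> simp
  rw [← h3, h1, Finset.card_union_add_card_inter, SimpleGraph.card_incidenceFinset_eq_degree,
    SimpleGraph.card_incidenceFinset_eq_degree]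

/-- the polynomial `E(G, x)` in terms of `1 + x` -/
noncomputable def PP : ℂ[X] := ∑ A : Finset V, C ((-1 : ℂ) ^ #A) * X ^ #(away G A)

theorem PP_eq : PP G = (edgeCoverPoly G).comp (X - 1) := by
  rw [poly_incl_excl, PP]
  rw [Polynomial.sum_comp]
  apply Finset.sum_congr rfl
  intro A _
  simp

theorem PP_coeff (k j : ℕ) (h : k + j = #G.edgeFinset) :
    (PP G).coeff k = ∑ A ∈ (univ : Finset (Finset V)).filter (fun A => #(touch G A) = j),
      (-1 : ℂ) ^ #A := by
  rw [PP, Polynomial.finsetSum_coeff, Finset.sum_filter]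
  apply Finset.sum_congr rfl
  intro A _
  rw [Polynomial.coeff_C_mul, Polynomial.coeff_X_pow]
  have h1 := away_touch G A
  by_cases h2 : #(touch G A) = j
  · rw [if_pos h2, if_pos (by omega), mul_one]
  · rw [if_neg h2, if_neg (by omega), mul_zero]

variable {G}

theorem coeff_above (k : ℕ) (h : #G.edgeFinset < k) : (PP G).coeff k = 0 := by
  rw [PP, Polynomial.finsetSum_coeff]
  apply Finset.sum_eq_zero
  intro A _
  rw [Polynomial.coeff_C_mul, Polynomial.coeff_X_pow]
  have h1 := away_touch G A
  rw [if_neg (by omega), mul_zero]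

theorem coeff_zero' (hdeg : ∀ x, 2 ≤ G.degree x) (k : ℕ) (h : k = #G.edgeFinset) :
    (PP G).coeff k = 1 := by
  rw [PP_coeff G k 0 (by omega)]
  have h1 : (univ : Finset (Finset V)).filter (fun A => #(touch G A) = 0) = {∅} := by
    ext A
    rw [Finset.mem_filter, Finset.mem_singleton]
    constructor
    · rintro ⟨_, h2⟩
      have := card_le_touch G hdeg A
      rw [h2] at this
      exact Finset.card_eq_zero.1 (by omega)
    · rintro rfl
      refine ⟨Finset.mem_univ _, ?_⟩
      simp [touch]
  rw [h1]
  simp

theorem coeff_one' (hdeg : ∀ x, 2 ≤ G.degree x) (k : ℕ) (h : k + 1 = #G.edgeFinset) :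
    (PP G).coeff k = 0 := by
  rw [PP_coeff G k 1 (by omega)]
  have h1 : (univ : Finset (Finset V)).filter (fun A => #(touch G A) = 1) = ∅ := by
    rw [Finset.filter_eq_empty_iff]
    intro A _ h2
    have h3 := card_le_touch G hdeg A
    rw [h2] at h3
    rcases Nat.le_one_iff_eq_zero_or_eq_one.1 h3 with h4 | h4
    · rw [Finset.card_eq_zero] at h4
      rw [h4] at h2
      simp [touch] at h2
    · rw [Finset.card_eq_one] at h4
      obtain ⟨x, rfl⟩ := h4
      rw [touch_singleton] at h2
      have := hdeg x
      omega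
  rw [h1]
  simp

theorem coeff_two' (hdeg : ∀ x, 2 ≤ G.degree x) (k : ℕ) (h : k + 2 = #G.edgeFinset) :
    (PP G).coeff k = -(#(univ.filter fun x => G.degree x = 2) : ℂ) := by
  rw [PP_coeff G k 2 (by omega)]
  have h1 : (univ : Finset (Finset V)).filter (fun A => #(touch G A) = 2) =
      (univ.filter fun x => G.degree x = 2).image (fun x => ({x} : Finset V)) := by
    ext A
    rw [Finset.mem_filter, Finset.mem_image]
    constructor
    · rintro ⟨_, h2⟩
      have h3 := card_le_touch G hdeg A
      rw [h2] at h3
      have h4 : #A = 0 ∨ #A = 1 ∨ #A = 2 := by omega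
      rcases h4 with h4 | h4 | h4
      · rw [Finset.card_eq_zero] at h4
        rw [h4] at h2
        simp [touch] at h2
      · rw [Finset.card_eq_one] at h4
        obtain ⟨x, rfl⟩ := h4
        rw [touch_singleton] at h2
        exact ⟨x, by simp [h2], rfl⟩
      · rw [Finset.card_eq_two] at h4
        obtain ⟨x, y, hxy, rfl⟩ := h4
        have h5 := touch_pair G x y hxy
        have := hdeg x
        have := hdeg y
        split_ifs at h5 <;> omega
    · rintro ⟨x, hx, rfl⟩
      rw [Finset.mem_filter] at hx
      exact ⟨Finset.mem_univ _, by rw [touch_singleton]; exact hx.2⟩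
  rw [h1, Finset.sum_image (fun x _ y _ h => Finset.singleton_injective h)]
  simp

theorem coeff_three' (hconn : G.Connected) (hdeg : ∀ x, 2 ≤ G.degree x)
    (hV : 4 ≤ Fintype.card V) (k : ℕ) (h : k + 3 = #G.edgeFinset) :
    (PP G).coeff k = (#(DD G) : ℂ) - (#(univ.filter fun x => G.degree x = 3) : ℂ) := by
  rw [PP_coeff G k 3 (by omega)]
  have h1 : (univ : Finset (Finset V)).filter (fun A => #(touch G A) = 3) =
      ((univ.filter fun x => G.degree x = 3).image (fun x => ({x} : Finset V))) ∪
        ((DD G).image Sym2.toFinset) := by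
    ext A
    rw [Finset.mem_filter, Finset.mem_union, Finset.mem_image, Finset.mem_image]
    constructor
    · rintro ⟨_, h2⟩
      have h3 := card_le_touch G hdeg A
      rw [h2] at h3
      have h4 : #A = 0 ∨ #A = 1 ∨ #A = 2 ∨ #A = 3 := by omega
      rcases h4 with h4 | h4 | h4 | h4
      · rw [Finset.card_eq_zero] at h4
        rw [h4] at h2
        simp [touch] at h2
      · rw [Finset.card_eq_one] at h4
        obtain ⟨x, rfl⟩ := h4
        rw [touch_singleton] at h2
        exact Or.inl ⟨x, by simp [h2], rfl⟩
      · right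
        rw [Finset.card_eq_two] at h4
        obtain ⟨x, y, hxy, rfl⟩ := h4
        have h5 := touch_pair G x y hxy
        have h6 := hdeg x
        have h7 := hdeg y
        split_ifs at h5 with hadj
        · refine ⟨s(x, y), (mem_DD G x y).2 ⟨hadj, by omega, by omega⟩, ?_⟩
          ext z
          rw [Sym2.mem_toFinset, Sym2.mem_iff]
          simp
        · omega
      · exfalso
        -- all touched edges lie inside `A`
        have h5 : ∀ e ∈ G.edgeFinset, cnt A e = if e ∈ touch G A then 2 else 0 := by
          by_contra hcon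
          push Not at hcon
          obtain ⟨e, he, hne⟩ := hcon
          have h6 : ∑ e ∈ G.edgeFinset, cnt A e <
              ∑ e ∈ G.edgeFinset, (if e ∈ touch G A then 2 else 0) :=
            Finset.sum_lt_sum (fun e he => cnt_le G A e he)
              ⟨e, he, lt_of_le_of_ne (cnt_le G A e he) hne⟩
          rw [← Finset.sum_filter, Finset.sum_const, smul_eq_mul] at h6
          have h7 : #(G.edgeFinset.filter (fun e => e ∈ touch G A)) ≤ #(touch G A) := by
            apply Finset.card_le_card
            intro e he
            exact (Finset.mem_filter.1 he).2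
          rw [← sum_deg] at h6
          have h8 : ∑ x ∈ A, 2 ≤ ∑ x ∈ A, G.degree x := Finset.sum_le_sum (fun x _ => hdeg x)
          rw [Finset.sum_const, smul_eq_mul] at h8
          omega
        have hcl : ∀ x y, G.Adj x y → x ∈ A → y ∈ A := by
          intro x y hxy hx
          have he : s(x, y) ∈ G.edgeFinset := by
            rw [SimpleGraph.mem_edgeFinset]; exact hxy
          have h6 := h5 s(x, y) he
          rw [if_pos, cnt_mk A x y hxy.ne, if_pos hx] at h6
          · by_contra hy
            rw [if_neg hy] at h6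
            omega
          · unfold touch
            rw [Finset.mem_filter]
            exact ⟨he, x, hx, by simp⟩
        have hall : ∀ x y, G.Reachable x y → x ∈ A → y ∈ A := by
          rintro x y ⟨w⟩
          induction w with
          | nil => exact id
          | cons h _ ih => exact fun hx => ih (hcl _ _ h hx)
        obtain ⟨x, hx⟩ := Finset.card_pos.1 (show 0 < #A by omega)
        have h6 : A = univ := by
          ext y
          simp [hall x y (hconn.preconnected x y) hx]
        rw [h6, Finset.card_univ] at h4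
        omega
    · rintro (⟨x, hx, rfl⟩ | ⟨e, he, rfl⟩)
      · rw [Finset.mem_filter] at hx
        exact ⟨Finset.mem_univ _, by rw [touch_singleton]; exact hx.2⟩
      · refine ⟨Finset.mem_univ _, ?_⟩
        induction e with
        | _ x y =>
          obtain ⟨hxy, hx, hy⟩ := (mem_DD G x y).1 he
          have h2 : (s(x, y)).toFinset = {x, y} := by
            ext z
            rw [Sym2.mem_toFinset, Sym2.mem_iff]
            simp
          have h3 := touch_pair G x y hxy.ne
          rw [h2]
          rw [if_pos hxy] at h3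
          omega
  have hcard2 : ∀ e ∈ DD G, #(e.toFinset) = 2 := by
    intro e he
    apply Sym2.card_toFinset_of_not_isDiag
    intro hd
    have h2 : e ∈ G.edgeFinset := (Finset.mem_filter.1 he).1
    rw [SimpleGraph.mem_edgeFinset] at h2
    exact G.not_isDiag_of_mem_edgeSet h2 hd
  rw [h1, Finset.sum_union, Finset.sum_image (fun x _ y _ h => Finset.singleton_injective h),
    Finset.sum_image]
  · rw [Finset.sum_congr (s₁ := DD G) rfl (fun e he => by rw [hcard2 e he])]
    simp
    ring
  · intro e he e' he' heq
    apply Sym2.ext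
    intro x
    rw [← Sym2.mem_toFinset, ← Sym2.mem_toFinset]
    rw [heq]
  · rw [Finset.disjoint_left]
    intro A hA hA'
    rw [Finset.mem_image] at hA hA'
    obtain ⟨x, _, rfl⟩ := hA
    obtain ⟨e, he, h2⟩ := hA'
    have h3 := hcard2 e he
    rw [h2] at h3
    simp at h3

end

/-- the differential equation -/
theorem coeff_rel (ρ c : ℕ) (s : ℂ) (P : ℂ[X]) (hP : P = (X - 1) ^ (ρ + 1) * (X - C s) ^ (c + 1))
    (n : ℕ) :
    (n : ℂ) * P.coeff n - (1 + s) * ((n + 1) * P.coeff (n + 1)) + s * ((n + 2) * P.coeff (n + 2)) =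
      (ρ + 1 + (c + 1)) * P.coeff n - ((ρ + 1) * s + (c + 1)) * P.coeff (n + 1) := by
  set D : ℂ[X] := X * derivative P with hD
  have hDc : ∀ j : ℕ, D.coeff j = j * P.coeff j := by
    intro j
    rw [hD]
    rcases j with _ | j
    · simp
    · rw [Polynomial.coeff_X_mul, Polynomial.coeff_derivative]
      push_cast
      ring
  have hode : X ^ 2 * D - C (1 + s) * (X * D) + C s * D =
      C ((ρ + 1 : ℂ) + (c + 1)) * (X ^ 2 * P) - C ((ρ + 1) * s + (c + 1)) * (X * P) := by
    rw [hD, hP]
    have h1 : derivative ((X - 1 : ℂ[X]) ^ (ρ + 1) * (X - C s) ^ (c + 1)) =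
        C (ρ + 1 : ℂ) * (X - 1) ^ ρ * (X - C s) ^ (c + 1) +
          (X - 1) ^ (ρ + 1) * (C (c + 1 : ℂ) * (X - C s) ^ c) := by
      rw [derivative_mul, derivative_pow, derivative_pow]
      simp
    rw [h1]
    simp only [C_add, C_mul, C_1]
    ring
  have hc := congrArg (fun Q : ℂ[X] => Q.coeff (n + 2)) hode
  simp only [Polynomial.coeff_sub, Polynomial.coeff_add, Polynomial.coeff_C_mul,
    Polynomial.coeff_X_pow_mul, Polynomial.coeff_X_mul, hDc] at hc
  push_cast at hc
  exact hc

end Pool.Agent.T6.H11.EC
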