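import Pool.Agent.T6.H11.EC.Half

/-!
# The structure of the extremal graphs

Let `G` be connected with all degrees at least two, with `2 T` edges, such that every edge cover
has at least `T` edges. For an edge `e` with both ends of degree at least three, one of the ends
lies on an odd cycle which is a component of `G - e`.
-/

set_option autoImplicit false
set_option linter.unusedSectionVars false

namespace Pool.Agent.T6.H11.EC

open Finset

theorem comp_cover {V : Type} [Fintype V] [DecidableEq V] (H : SimpleGraph V) [DecidableRel H.Adj]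
    (c : H.ConnectedComponent) (hdeg : ∀ x ∈ c.supp, 2 ≤ H.degree x) :
    ∃ C F : Finset (Sym2 V), C ⊆ F ∧ F ⊆ H.edgeFinset ∧ (∀ f ∈ F, ∀ x ∈ f, x ∈ c.supp) ∧
      (∀ x ∈ c.supp, ∃ e ∈ C, x ∈ e) ∧ (2 * #C ≤ #F ∨ (∀ x ∈ c.supp, H.degree x = 2)) := by
  classical
  set K : SimpleGraph c.supp := H.induce c.supp with hK
  have hconn : K.Connected := c.connected_toSimpleGraph
  have hKdeg : ∀ x : c.supp, K.degree x = H.degree x := by
    intro x
    apply SimpleGraph.degree_induce_of_neighborSet_subset
    intro y hy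
    exact (c.mem_supp_congr_adj hy).1 x.2
  obtain ⟨C, h1, h2, h3⟩ := half_cover K hconn (fun x => by rw [hKdeg]; exact hdeg x x.2)
  have hinj : Function.Injective (Sym2.map (Subtype.val : c.supp → V)) :=
    Sym2.map.injective Subtype.val_injective
  have hmem : ∀ f ∈ K.edgeFinset.image (Sym2.map Subtype.val), f ∈ H.edgeFinset ∧
      ∀ x ∈ f, x ∈ c.supp := by
    intro f hf
    rw [Finset.mem_image] at hf
    obtain ⟨g, hg, rfl⟩ := hf
    rw [SimpleGraph.mem_edgeFinset] at hg
    rw [SimpleGraph.mem_edgeFinset]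
    induction g with
    | _ p q =>
      rw [Sym2.map_mk]
      refine ⟨hg, ?_⟩
      intro x hx
      rw [Sym2.mem_iff] at hx
      rcases hx with rfl | rfl
      · exact p.2
      · exact q.2
  refine ⟨C.image (Sym2.map Subtype.val), K.edgeFinset.image (Sym2.map Subtype.val),
    Finset.image_subset_image h1, fun f hf => (hmem f hf).1, fun f hf => (hmem f hf).2, ?_, ?_⟩
  · intro x hx
    obtain ⟨e, he, hxe⟩ := h2 ⟨x, hx⟩
    refine ⟨e.map Subtype.val, Finset.mem_image_of_mem _ he, ?_⟩
    rw [Sym2.mem_map]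
    exact ⟨_, hxe, rfl⟩
  · rcases h3 with h3 | h3
    · left
      rw [Finset.card_image_of_injective _ hinj, Finset.card_image_of_injective _ hinj]
      exact h3
    · right
      intro x hx
      rw [← h3.1 ⟨x, hx⟩, hKdeg]

section
variable {V : Type} [Fintype V] [DecidableEq V] (G : SimpleGraph V) [DecidableRel G.Adj]

/-- the edges with both ends of degree at least three -/
def MM : Finset (Sym2 V) := G.edgeFinset.filter (fun f => ∀ x ∈ f, 3 ≤ G.degree x)

/-- the edges with both ends of degree two -/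
def DD : Finset (Sym2 V) := G.edgeFinset.filter (fun f => ∀ x ∈ f, G.degree x = 2)

/-- `A` is an odd cycle hanging at the end `u` of the edge `uv`. -/
structure Hang (u v : V) (A : Set V) : Prop where
  adj : G.Adj u v
  du : 3 ≤ G.degree u
  dv : 3 ≤ G.degree v
  mem : u ∈ A
  nmem : v ∉ A
  closed : ∀ x ∈ A, ∀ y, G.Adj x y → s(x, y) ≠ s(u, v) → y ∈ A
  deg3 : G.degree u = 3
  deg2 : ∀ x ∈ A, x ≠ u → G.degree x = 2
  conn : ∀ x ∈ A, (G.deleteEdges {s(u, v)}).Reachable x u

theorem del_degree (u v : V) (h : G.Adj u v) (x : V) :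
    (G.deleteEdges {s(u, v)}).degree x + (if x ∈ s(u, v) then 1 else 0) = G.degree x := by
  rw [← SimpleGraph.card_neighborFinset_eq_degree, ← SimpleGraph.card_neighborFinset_eq_degree]
  by_cases hx : x ∈ s(u, v)
  · rw [if_pos hx]
    obtain ⟨y, hy⟩ := hx
    have hadj : G.Adj x y := by
      rw [← SimpleGraph.mem_edgeSet, ← hy]; exact h
    have h1 : (G.deleteEdges {s(u, v)}).neighborFinset x = (G.neighborFinset x).erase y := by
      ext z
      rw [SimpleGraph.mem_neighborFinset, Finset.mem_erase, SimpleGraph.mem_neighborFinset,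
        SimpleGraph.deleteEdges_adj, Set.mem_singleton_iff, hy]
      constructor
      · rintro ⟨h1, h2⟩
        refine ⟨?_, h1⟩
        rintro rfl
        exact h2 rfl
      · rintro ⟨h1, h2⟩
        refine ⟨h2, ?_⟩
        intro h3
        rw [Sym2.congr_right] at h3
        exact h1 h3
    rw [h1]
    exact Finset.card_erase_add_one ((SimpleGraph.mem_neighborFinset _ _ _).2 hadj)
  · rw [if_neg hx, add_zero]
    congr 1
    ext z
    rw [SimpleGraph.mem_neighborFinset, SimpleGraph.mem_neighborFinset,
      SimpleGraph.deleteEdges_adj, Set.mem_singleton_iff]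
    constructor
    · exact fun h => h.1
    · intro h1
      refine ⟨h1, ?_⟩
      intro h2
      apply hx
      rw [← h2]
      simp

theorem del_comp (hconn : G.Connected) (u v x : V) :
    (G.deleteEdges {s(u, v)}).Reachable x u ∨ (G.deleteEdges {s(u, v)}).Reachable x v := by
  have key : ∀ x y : V, G.Walk x y → y = u → (G.deleteEdges {s(u, v)}).Reachable x u ∨
      (G.deleteEdges {s(u, v)}).Reachable x v := by
    intro x y w
    induction w with
    | nil => rintro rfl; exact Or.inl (SimpleGraph.Reachable.refl _)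
    | @cons p q r h _ ih =>
      intro hr
      by_cases he : s(p, q) = s(u, v)
      · rw [Sym2.eq_iff] at he
        rcases he with ⟨rfl, _⟩ | ⟨rfl, _⟩
        · exact Or.inl (SimpleGraph.Reachable.refl _)
        · exact Or.inr (SimpleGraph.Reachable.refl _)
      · have h1 : (G.deleteEdges {s(u, v)}).Adj p q := by
          rw [SimpleGraph.deleteEdges_adj]
          exact ⟨h, he⟩
        rcases ih hr with h2 | h2
        · exact Or.inl (h1.reachable.trans h2)
        · exact Or.inr (h1.reachable.trans h2)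
  obtain ⟨w⟩ := hconn.preconnected x u
  exact key x u w rfl

/-- the analysis of `H = G - uv` -/
theorem exc_aux (hdeg : ∀ x, 2 ≤ G.degree x) (T : ℕ)
    (hT : #G.edgeFinset = 2 * T)
    (hmin : ∀ C ⊆ G.edgeFinset, (∀ x, ∃ e ∈ C, x ∈ e) → T ≤ #C)
    (u v : V) (huv : G.Adj u v) (hu : 3 ≤ G.degree u) (hv : 3 ≤ G.degree v)
    (H : SimpleGraph V) [DecidableRel H.Adj]
    (hHadj : ∀ x y, H.Adj x y ↔ G.Adj x y ∧ s(x, y) ≠ s(u, v))
    (hdd : ∀ x, H.degree x + (if x ∈ s(u, v) then 1 else 0) = G.degree x)
    (hor' : ∀ x, H.Reachable x u ∨ H.Reachable x v) :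
    ((∀ x, H.Reachable x u → H.degree x = 2) ∧ ¬ H.Reachable v u) ∨
    ((∀ x, H.Reachable x v → H.degree x = 2) ∧ ¬ H.Reachable u v) ∨
    (∀ x, H.degree x = 2) := by
  have hHdeg : ∀ x, 2 ≤ H.degree x := by
    intro x
    have h1 := hdd x
    have h2 := hdeg x
    by_cases hx : x ∈ s(u, v)
    · rw [if_pos hx] at h1
      rw [Sym2.mem_iff] at hx
      rcases hx with rfl | rfl <;> omega
    · rw [if_neg hx] at h1
      omega
  have hsubE : H.edgeFinset ⊆ G.edgeFinset.erase s(u, v) := by
    intro f hf
    rw [SimpleGraph.mem_edgeFinset] at hf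
    rw [Finset.mem_erase, SimpleGraph.mem_edgeFinset]
    induction f with
    | _ p q =>
      rw [SimpleGraph.mem_edgeSet, hHadj] at hf
      exact ⟨hf.2, hf.1⟩
  have hcardE : #H.edgeFinset ≤ 2 * T - 1 := by
    refine (Finset.card_le_card hsubE).trans ?_
    rw [Finset.card_erase_of_mem (by rw [SimpleGraph.mem_edgeFinset]; exact huv), hT]
  have hTpos : 1 ≤ 2 * T := by
    rw [← hT]
    exact Finset.card_pos.2 ⟨s(u, v), by rw [SimpleGraph.mem_edgeFinset]; exact huv⟩
  have hsubG : H.edgeFinset ⊆ G.edgeFinset := hsubE.trans (Finset.erase_subset _ _)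
  obtain ⟨cu, hmu⟩ : ∃ c : H.ConnectedComponent, ∀ x, x ∈ c.supp ↔ H.Reachable x u :=
    ⟨H.connectedComponentMk u, fun x => by
      rw [SimpleGraph.ConnectedComponent.mem_supp_iff, SimpleGraph.ConnectedComponent.eq]⟩
  obtain ⟨cv, hmv⟩ : ∃ c : H.ConnectedComponent, ∀ x, x ∈ c.supp ↔ H.Reachable x v :=
    ⟨H.connectedComponentMk v, fun x => by
      rw [SimpleGraph.ConnectedComponent.mem_supp_iff, SimpleGraph.ConnectedComponent.eq]⟩
  obtain ⟨Cu, Fu, hu1, hu1', hu1'', hu2, hu3⟩ := comp_cover H cu (fun x _ => hHdeg x)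
  obtain ⟨Cv, Fv, hv1, hv1', hv1'', hv2, hv3⟩ := comp_cover H cv (fun x _ => hHdeg x)
  have hCu : Cu ⊆ G.edgeFinset := hu1.trans (hu1'.trans hsubG)
  have hCv : Cv ⊆ G.edgeFinset := hv1.trans (hv1'.trans hsubG)
  simp only [hmu] at hu1'' hu2 hu3
  simp only [hmv] at hv1'' hv2 hv3
  by_cases hvu : H.Reachable v u
  · -- `G - e` is connected
    right; right
    have hall : ∀ x, H.Reachable x u := by
      intro x
      rcases hor' x with h | h
      · exact h
      · exact h.trans hvu
    rcases hu3 with hu3 | hu3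
    · exfalso
      have h1 := hmin Cu hCu (fun x => hu2 x (hall x))
      have h2 := Finset.card_le_card hu1'
      omega
    · exact fun x => hu3 x (hall x)
  · rcases hu3 with hu3 | hu3
    · rcases hv3 with hv3 | hv3
      · exfalso
        have h1 := hmin (Cu ∪ Cv) (Finset.union_subset hCu hCv) (by
          intro x
          rcases hor' x with h | h
          · obtain ⟨e, he, hxe⟩ := hu2 x h
            exact ⟨e, Finset.mem_union_left _ he, hxe⟩
          · obtain ⟨e, he, hxe⟩ := hv2 x h
            exact ⟨e, Finset.mem_union_right _ he, hxe⟩)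
        have h2 := Finset.card_union_le Cu Cv
        have h3 : #Fu + #Fv ≤ #H.edgeFinset := by
          rw [← Finset.card_union_of_disjoint]
          · exact Finset.card_le_card (Finset.union_subset hu1' hv1')
          · rw [Finset.disjoint_left]
            intro f hf hf'
            have h4 := hu1'' f hf
            have h5 := hv1'' f hf'
            induction f with
            | _ p q =>
              exact hvu ((h5 p (by simp)).symm.trans (h4 p (by simp)))
        omega
      · exact Or.inr (Or.inl ⟨hv3, fun h => hvu h.symm⟩)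
    · exact Or.inl ⟨hu3, hvu⟩

theorem exc (hconn : G.Connected) (hdeg : ∀ x, 2 ≤ G.degree x) (T : ℕ)
    (hT : #G.edgeFinset = 2 * T)
    (hmin : ∀ C ⊆ G.edgeFinset, (∀ x, ∃ e ∈ C, x ∈ e) → T ≤ #C)
    (u v : V) (huv : G.Adj u v) (hu : 3 ≤ G.degree u) (hv : 3 ≤ G.degree v) :
    (∃ A, Hang G u v A) ∨ (∃ A, Hang G v u A) ∨
      (G.degree u = 3 ∧ G.degree v = 3 ∧ ∀ x, x ≠ u → x ≠ v → G.degree x = 2) := by
  classical
  have hdd := del_degree G u v huv
  have haux := exc_aux G hdeg T hT hmin u v huv hu hv (G.deleteEdges {s(u, v)})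
    (fun x y => by rw [SimpleGraph.deleteEdges_adj, Set.mem_singleton_iff]) hdd
    (del_comp G hconn u v)
  have hclosed : ∀ w, ∀ x, (G.deleteEdges {s(u, v)}).Reachable x w → ∀ y, G.Adj x y →
      s(x, y) ≠ s(u, v) → (G.deleteEdges {s(u, v)}).Reachable y w := by
    intro w x hx y hxy hne
    have h1 : (G.deleteEdges {s(u, v)}).Adj y x := by
      rw [SimpleGraph.deleteEdges_adj]
      refine ⟨hxy.symm, ?_⟩
      rw [Set.mem_singleton_iff, Sym2.eq_swap]
      exact hne
    exact h1.reachable.trans hx
  rcases haux with ⟨hex, hvu⟩ | ⟨hex, huv'⟩ | hall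
  · left
    refine ⟨{x | (G.deleteEdges {s(u, v)}).Reachable x u}, huv, hu, hv,
      SimpleGraph.Reachable.refl _, hvu, ?_, ?_, ?_, ?_⟩
    · intro x hx y hxy hne
      exact hclosed u x hx y hxy hne
    · have h1 := hdd u
      rw [if_pos (by simp), hex u (SimpleGraph.Reachable.refl _)] at h1
      exact h1.symm
    · intro x hx hxu
      have h1 := hdd x
      rw [if_neg ?_, hex x hx] at h1
      · exact h1.symm
      · rw [Sym2.mem_iff]
        rintro (h | h)
        · exact hxu h
        · exact hvu (h ▸ hx)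
    · intro x hx
      exact hx
  · right; left
    have hsw : s(v, u) = s(u, v) := Sym2.eq_swap
    refine ⟨{x | (G.deleteEdges {s(u, v)}).Reachable x v}, huv.symm, hv, hu,
      SimpleGraph.Reachable.refl _, huv', ?_, ?_, ?_, ?_⟩
    · intro x hx y hxy hne
      rw [hsw] at hne
      exact hclosed v x hx y hxy hne
    · have h1 := hdd v
      rw [if_pos (by simp), hex v (SimpleGraph.Reachable.refl _)] at h1
      exact h1.symm
    · intro x hx hxu
      have h1 := hdd x
      rw [if_neg ?_, hex x hx] at h1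
      · exact h1.symm
      · rw [Sym2.mem_iff]
        rintro (h | h)
        · exact huv' (h ▸ hx)
        · exact hxu h
    · intro x hx
      rw [hsw]
      exact hx
  · right; right
    refine ⟨?_, ?_, ?_⟩
    · have h1 := hdd u
      rw [if_pos (by simp), hall u] at h1
      exact h1.symm
    · have h1 := hdd v
      rw [if_pos (by simp), hall v] at h1
      exact h1.symm
    · intro x hx hx'
      have h1 := hdd x
      rw [if_neg (by rw [Sym2.mem_iff]; tauto), hall x] at h1
      exact h1.symm

end

end Pool.Agent.T6.H11.EC
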