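import Pool.Agent.R1.MajC

/-!
# Euler tours and small edge covers

A connected graph with all degrees at least two has an edge cover with at most half of the edges,
unless it is an odd cycle. The existence of Euler tours is `Pool.Agent.R553.SP.euler`
(helper553); the setup follows `Pool.Agent.R1.MajI`.
-/

set_option autoImplicit false
set_option linter.unusedSectionVars false

namespace Pool.Agent.T6.H11.EC

open Finset
open Pool.Agent.R553.SP (tl hd CC Share)
open Pool.Agent.R1.Maj (Tour Seg vt vt_tour)

theorem seg_of_chain {E Q : Type} (a b : E → Q) (d : E × Bool) (l : List (E × Bool))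
    (h : (d :: l).IsChain (fun x y => hd a b x = tl a b y)) :
    Seg a b (tl a b d) (d :: l) (hd a b ((d :: l).getLast (by simp))) := by
  induction l generalizing d with
  | nil => exact ⟨rfl, rfl⟩
  | cons e l ih =>
    rw [List.isChain_cons_cons] at h
    refine ⟨rfl, ?_⟩
    rw [h.1]
    have h1 := ih e h.2
    rw [List.getLast_cons (by simp : e :: l ≠ [])]
    exact h1

theorem exists_tour {V : Type} [Fintype V] [DecidableEq V] (G : SimpleGraph V) [DecidableRel G.Adj]
    (hconn : G.Connected) (hne : G.edgeSet.Nonempty) (hev : ∀ v, Even (G.degree v)) :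
    ∃ m v, Tour G m v := by
  classical
  set a : G.edgeSet → V := fun e => (Quot.out (e : Sym2 V)).1 with ha
  set b : G.edgeSet → V := fun e => (Quot.out (e : Sym2 V)).2 with hb
  have hab : ∀ e : G.edgeSet, s(a e, b e) = (e : Sym2 V) := by
    intro e
    exact Quot.out_eq (e : Sym2 V)
  have hadj : ∀ e : G.edgeSet, G.Adj (a e) (b e) := by
    intro e
    have h := e.2
    rw [← hab e] at h
    exact h
  have : Nonempty G.edgeSet := hne.to_subtype
  have hdeg : ∀ q, (univ.filter fun e => a e = q).card + (univ.filter fun e => b e = q).card =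
      G.degree q := by
    intro q
    rw [← Finset.card_union_of_disjoint]
    · rw [← SimpleGraph.card_incidenceFinset_eq_degree]
      have h1 : G.incidenceFinset q =
          ((univ.filter fun e => a e = q) ∪ (univ.filter fun e => b e = q)).map
            (Function.Embedding.subtype _) := by
        ext e
        rw [SimpleGraph.mem_incidenceFinset, Finset.mem_map]
        constructor
        · rintro ⟨h1, h2⟩
          refine ⟨⟨e, h1⟩, ?_, rfl⟩
          rw [Finset.mem_union, Finset.mem_filter, Finset.mem_filter]
          have h3 := hab ⟨e, h1⟩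
          rw [← show ((⟨e, h1⟩ : G.edgeSet) : Sym2 V) = e from rfl, ← h3, Sym2.mem_iff] at h2
          rcases h2 with h2 | h2
          · left; exact ⟨Finset.mem_univ _, h2.symm⟩
          · right; exact ⟨Finset.mem_univ _, h2.symm⟩
        · rintro ⟨⟨e', he'⟩, h1, rfl⟩
          refine ⟨he', ?_⟩
          rw [Finset.mem_union, Finset.mem_filter, Finset.mem_filter] at h1
          have h3 := hab ⟨e', he'⟩
          show q ∈ e'
          rw [← show ((⟨e', he'⟩ : G.edgeSet) : Sym2 V) = e' from rfl, ← h3, Sym2.mem_iff]
          rcases h1 with ⟨_, h1⟩ | ⟨_, h1⟩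
          · left; exact h1.symm
          · right; exact h1.symm
      rw [h1, Finset.card_map]
    · rw [Finset.disjoint_filter]
      intro e _ h1 h2
      exact (hadj e).ne (h1.trans h2.symm)
  have hev' : ∀ q, Even ((univ.filter fun e => a e = q).card +
      (univ.filter fun e => b e = q).card) := by
    intro q
    rw [hdeg q]
    exact hev q
  have hconn' : ∀ S : Set G.edgeSet, S.Nonempty → Sᶜ.Nonempty →
      ∃ e ∈ S, ∃ f ∉ S, Share a b e f := by
    rintro S ⟨e0, he0⟩ ⟨f0, hf0⟩
    by_contra hcon
    push Not at hcon
    -- vertices touched by S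
    have hclosed : ∀ x y : V, G.Adj x y → (∃ e ∈ S, a e = x ∨ b e = x) →
        (∃ e ∈ S, a e = y ∨ b e = y) := by
      rintro x y hxy ⟨e, he, hex⟩
      set f : G.edgeSet := ⟨s(x, y), hxy⟩ with hf
      have hfxy : (a f = x ∧ b f = y) ∨ (a f = y ∧ b f = x) := by
        have := hab f
        rw [hf] at this
        rw [← Sym2.eq_iff]
        exact this
      have hfS : f ∈ S := by
        by_contra hfS
        apply hcon e he f hfS
        unfold Share
        rcases hex with hex | hex <;> rcases hfxy with ⟨h1, h2⟩ | ⟨h1, h2⟩
        · left; rw [hex, h1]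
        · right; left; rw [hex, h2]
        · right; right; left; rw [hex, h1]
        · right; right; right; rw [hex, h2]
      refine ⟨f, hfS, ?_⟩
      rcases hfxy with ⟨h1, h2⟩ | ⟨h1, h2⟩
      · right; exact h2
      · left; exact h1
    have hreach : ∀ x y : V, G.Reachable x y → (∃ e ∈ S, a e = x ∨ b e = x) →
        (∃ e ∈ S, a e = y ∨ b e = y) := by
      rintro x y ⟨w⟩
      induction w with
      | nil => exact id
      | cons h _ ih => exact fun hx => ih (hclosed _ _ h hx)
    obtain ⟨e, he, hex⟩ := hreach (a e0) (a f0) (hconn.preconnected _ _) ⟨e0, he0, Or.inl rfl⟩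
    apply hcon e he f0 hf0
    unfold Share
    rcases hex with hex | hex
    · left; exact hex
    · right; right; left; exact hex
  obtain ⟨l, hlne, hnd, hall, hcc⟩ := Pool.Agent.R553.SP.euler a b hev' hconn'
  obtain ⟨d, l', rfl⟩ := List.exists_cons_of_ne_nil hlne
  have hseg := seg_of_chain a b d l' hcc.1
  have hlast : hd a b ((d :: l').getLast (by simp)) = tl a b d := by
    apply hcc.2
    · rw [List.getLast?_eq_getLast_of_ne_nil (by simp)]
      exact rfl
    · rfl
  rw [hlast] at hseg
  exact ⟨_, _, vt_tour hab (d :: l') d _ hlne hseg hnd hall⟩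

end Pool.Agent.T6.H11.EC
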