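import Pool.Agent.T6.H11.EC.Struct

/-!
# The triangles

If moreover the number of edges joining vertices of degree two is the number of edges between
vertices of degree at least three, and the number of vertices of degree three, then every edge
joining vertices of degree at least three is a bridge to a triangle.
-/

set_option autoImplicit false
set_option linter.unusedSectionVars false

namespace Pool.Agent.T6.H11.EC

open Finset

section
variable {V : Type} [Fintype V] [DecidableEq V] (G : SimpleGraph V) [DecidableRel G.Adj]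

theorem mem_MM (u v : V) : s(u, v) ∈ MM G ↔ G.Adj u v ∧ 3 ≤ G.degree u ∧ 3 ≤ G.degree v := by
  unfold MM
  rw [Finset.mem_filter, SimpleGraph.mem_edgeFinset, SimpleGraph.mem_edgeSet]
  constructor
  · rintro ⟨h1, h2⟩
    exact ⟨h1, h2 u (by simp), h2 v (by simp)⟩
  · rintro ⟨h1, h2, h3⟩
    refine ⟨h1, fun x hx => ?_⟩
    rw [Sym2.mem_iff] at hx
    rcases hx with rfl | rfl
    · exact h2
    · exact h3

theorem mem_DD (u v : V) : s(u, v) ∈ DD G ↔ G.Adj u v ∧ G.degree u = 2 ∧ G.degree v = 2 := by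
  unfold DD
  rw [Finset.mem_filter, SimpleGraph.mem_edgeFinset, SimpleGraph.mem_edgeSet]
  constructor
  · rintro ⟨h1, h2⟩
    exact ⟨h1, h2 u (by simp), h2 v (by simp)⟩
  · rintro ⟨h1, h2, h3⟩
    refine ⟨h1, fun x hx => ?_⟩
    rw [Sym2.mem_iff] at hx
    rcases hx with rfl | rfl
    · exact h2
    · exact h3

theorem exists_hang (hconn : G.Connected) (hdeg : ∀ x, 2 ≤ G.degree x) (T : ℕ)
    (hT : #G.edgeFinset = 2 * T)
    (hmin : ∀ C ⊆ G.edgeFinset, (∀ x, ∃ e ∈ C, x ∈ e) → T ≤ #C)
    (hDM : #(DD G) = #(MM G)) (hD3 : #(DD G) = #(univ.filter fun x => G.degree x = 3))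
    (e : Sym2 V) (he : e ∈ MM G) : ∃ u v A, e = s(u, v) ∧ Hang G u v A := by
  induction e with
  | _ u v =>
    have he' := (mem_MM G u v).1 he
    obtain ⟨huv, hu, hv⟩ := he'
    rcases exc G hconn hdeg T hT hmin u v huv hu hv with ⟨A, h⟩ | ⟨A, h⟩ | ⟨h1, h2, h3⟩
    · exact ⟨u, v, A, rfl, h⟩
    · exact ⟨v, u, A, Sym2.eq_swap, h⟩
    · exfalso
      have h4 : MM G ⊆ {s(u, v)} := by
        intro f hf
        induction f with
        | _ p q =>
          obtain ⟨hpq, hp, hq⟩ := (mem_MM G p q).1 hf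
          have k1 : p = u ∨ p = v := by
            by_contra hcon
            push Not at hcon
            have := h3 p hcon.1 hcon.2
            omega
          have k2 : q = u ∨ q = v := by
            by_contra hcon
            push Not at hcon
            have := h3 q hcon.1 hcon.2
            omega
          rw [Finset.mem_singleton]
          rcases k1 with rfl | rfl <;> rcases k2 with rfl | rfl
          · exact absurd hpq (G.irrefl)
          · rfl
          · exact Sym2.eq_swap
          · exact absurd hpq (G.irrefl)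
      have h5 : #(MM G) ≤ 1 := (Finset.card_le_card h4).trans (by simp)
      have h6 : ({u, v} : Finset V) ⊆ univ.filter fun x => G.degree x = 3 := by
        intro x hx
        rw [Finset.mem_insert, Finset.mem_singleton] at hx
        rw [Finset.mem_filter]
        rcases hx with rfl | rfl
        · exact ⟨Finset.mem_univ _, h1⟩
        · exact ⟨Finset.mem_univ _, h2⟩
      have h7 := Finset.card_le_card h6
      rw [Finset.card_pair huv.ne] at h7
      omega

variable {G}

theorem Hang.nbrs {u v : V} {A : Set V} (h : Hang G u v A) : ∃ a b, a ≠ b ∧ G.Adj u a ∧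
    G.Adj u b ∧ a ∈ A ∧ b ∈ A ∧ a ≠ u ∧ b ≠ u := by
  have h1 : #((G.neighborFinset u).erase v) = 2 := by
    rw [Finset.card_erase_of_mem (by rw [SimpleGraph.mem_neighborFinset]; exact h.adj),
      SimpleGraph.card_neighborFinset_eq_degree, h.deg3]
  obtain ⟨a, b, hab, heq⟩ := Finset.card_eq_two.1 h1
  have ha : a ∈ (G.neighborFinset u).erase v := by rw [heq]; simp
  have hb : b ∈ (G.neighborFinset u).erase v := by rw [heq]; simp
  rw [Finset.mem_erase, SimpleGraph.mem_neighborFinset] at ha hb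
  refine ⟨a, b, hab, ha.2, hb.2, ?_, ?_, ha.2.ne.symm, hb.2.ne.symm⟩
  · apply h.closed u h.mem a ha.2
    intro h2
    rw [Sym2.congr_right] at h2
    exact ha.1 h2
  · apply h.closed u h.mem b hb.2
    intro h2
    rw [Sym2.congr_right] at h2
    exact hb.1 h2

theorem Hang.second {u v : V} {A : Set V} (h : Hang G u v A) {x : V} (hx : x ∈ A)
    (hxu : x ≠ u) : ∃ y, G.Adj x y ∧ y ∈ A ∧ y ≠ u := by
  have h1 : 1 ≤ #((G.neighborFinset x).erase u) := by
    have h2 := Finset.pred_card_le_card_erase (s := G.neighborFinset x) (a := u)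
    rw [SimpleGraph.card_neighborFinset_eq_degree, h.deg2 x hx hxu] at h2
    omega
  obtain ⟨y, hy⟩ := Finset.card_pos.1 h1
  rw [Finset.mem_erase, SimpleGraph.mem_neighborFinset] at hy
  refine ⟨y, hy.2, ?_, hy.1⟩
  apply h.closed x hx y hy.2
  intro h2
  have h3 : x ∈ s(u, v) := by rw [← h2]; simp
  rw [Sym2.mem_iff] at h3
  rcases h3 with h3 | h3
  · exact hxu h3
  · exact h.nmem (h3 ▸ hx)

theorem Hang.only {u v : V} {A : Set V} (h : Hang G u v A) {x : V} (hx : x ∈ A)
    (h3 : 3 ≤ G.degree x) : x = u := by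
  by_contra hcon
  have := h.deg2 x hx hcon
  omega

/-- the components of different edges have no edge in common -/
theorem Hang.disj {u v u' v' : V} {A A' : Set V} (h : Hang G u v A) (h' : Hang G u' v' A')
    (hne : s(u, v) ≠ s(u', v')) (x : V) (hx : x ∈ A) (hx' : x ∈ A') : False := by
  have key : ∀ x y : V, (G.deleteEdges {s(u, v)}).Walk x y → y = u → x ∈ A → x ∈ A' → u ∈ A' := by
    intro x y w
    induction w with
    | nil =>
      rintro rfl _ h2
      exact h2
    | @cons p q r hpq _ ih =>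
      intro hr hp hp'
      rw [SimpleGraph.deleteEdges_adj, Set.mem_singleton_iff] at hpq
      have hq : q ∈ A := h.closed p hp q hpq.1 hpq.2
      apply ih hr hq
      apply h'.closed p hp' q hpq.1
      intro he
      have k1 : 3 ≤ G.degree p := by
        have : p ∈ s(u', v') := by rw [← he]; simp
        rw [Sym2.mem_iff] at this
        rcases this with rfl | rfl
        · exact h'.du
        · exact h'.dv
      have k2 : 3 ≤ G.degree q := by
        have : q ∈ s(u', v') := by rw [← he]; simp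
        rw [Sym2.mem_iff] at this
        rcases this with rfl | rfl
        · exact h'.du
        · exact h'.dv
      have k3 := h.only hp k1
      have k4 := h.only hq k2
      rw [k3, k4] at hpq
      exact G.irrefl hpq.1
  obtain ⟨w⟩ := h.conn x hx
  have h1 := key x u w rfl hx hx'
  have h2 : u = u' := h'.only h1 h.du
  have h3 : v ∈ A' := h'.closed u h1 v h.adj hne
  have h4 : v = u' := h'.only h3 h.dv
  exact h.adj.ne (h2.trans h4.symm)

variable (G)

/-- `e = uv`, where `u` has degree three and the other two edges at `u` are in a triangle `uab`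
with vertices `a`, `b` of degree two. -/
structure Tri (e : Sym2 V) (u v a b : V) : Prop where
  eq : e = s(u, v)
  uv : G.Adj u v
  ua : G.Adj u a
  ub : G.Adj u b
  ab : G.Adj a b
  du : G.degree u = 3
  dv : 3 ≤ G.degree v
  da : G.degree a = 2
  db : G.degree b = 2

theorem triangles (hconn : G.Connected) (hdeg : ∀ x, 2 ≤ G.degree x) (T : ℕ)
    (hT : #G.edgeFinset = 2 * T)
    (hmin : ∀ C ⊆ G.edgeFinset, (∀ x, ∃ e ∈ C, x ∈ e) → T ≤ #C)
    (hDM : #(DD G) = #(MM G)) (hD3 : #(DD G) = #(univ.filter fun x => G.degree x = 3)) :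
    ∃ u v a b : Sym2 V → V, (∀ e ∈ MM G, Tri G e (u e) (v e) (a e) (b e)) ∧
      ∀ f ∈ DD G, ∃ e ∈ MM G, f = s(a e, b e) := by
  classical
  rcases isEmpty_or_nonempty V with hV | ⟨⟨x0⟩⟩
  · exact absurd hconn.nonempty (not_nonempty_iff.2 hV)
  have h0 : ∀ e : Sym2 V, ∃ p : V × V × Set V, e ∈ MM G → e = s(p.1, p.2.1) ∧
      Hang G p.1 p.2.1 p.2.2 := by
    intro e
    by_cases he : e ∈ MM G
    · obtain ⟨u, v, A, h1, h2⟩ := exists_hang G hconn hdeg T hT hmin hDM hD3 e he
      exact ⟨(u, v, A), fun _ => ⟨h1, h2⟩⟩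
    · exact ⟨(x0, x0, ∅), fun h => absurd h he⟩
  choose p hp using h0
  -- the sets of edges
  set S : Sym2 V → Finset (Sym2 V) := fun e => (DD G).filter (fun f => ∀ x ∈ f, x ∈ (p e).2.2)
    with hS
  have hmemS : ∀ e ∈ MM G, ∀ x ∈ (p e).2.2, x ≠ (p e).1 → ∀ y ∈ (p e).2.2, y ≠ (p e).1 →
      G.Adj x y → s(x, y) ∈ S e := by
    intro e he x hx hxu y hy hyu hxy
    obtain ⟨_, h⟩ := hp e he
    rw [hS, Finset.mem_filter]
    refine ⟨(mem_DD G x y).2 ⟨hxy, h.deg2 x hx hxu, h.deg2 y hy hyu⟩, ?_⟩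
    intro z hz
    rw [Sym2.mem_iff] at hz
    rcases hz with rfl | rfl
    · exact hx
    · exact hy
  have hone : ∀ e ∈ MM G, 1 ≤ #(S e) := by
    intro e he
    obtain ⟨_, h⟩ := hp e he
    obtain ⟨a, b, hab, hua, hub, ha, hb, hau, hbu⟩ := h.nbrs
    obtain ⟨a', h1, h2, h3⟩ := h.second ha hau
    exact Finset.card_pos.2 ⟨_, hmemS e he a ha hau a' h2 h3 h1⟩
  have hdisj : ∀ e ∈ MM G, ∀ e' ∈ MM G, e ≠ e' → Disjoint (S e) (S e') := by
    intro e he e' he' hne
    rw [Finset.disjoint_left]
    intro f hf hf'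
    rw [hS, Finset.mem_filter] at hf hf'
    obtain ⟨h1, h⟩ := hp e he
    obtain ⟨h1', h'⟩ := hp e' he'
    induction f with
    | _ x y =>
      exact h.disj h' (by rw [← h1, ← h1']; exact hne) x (hf.2 x (by simp)) (hf'.2 x (by simp))
  have hsum : ∑ e ∈ MM G, #(S e) ≤ #(MM G) := by
    rw [← hDM, ← Finset.card_biUnion hdisj]
    apply Finset.card_le_card
    intro f hf
    rw [Finset.mem_biUnion] at hf
    obtain ⟨e, _, hf⟩ := hf
    exact (Finset.mem_filter.1 hf).1
  have hS1 : ∀ e ∈ MM G, #(S e) = 1 := by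
    by_contra hcon
    push Not at hcon
    obtain ⟨e, he, hne⟩ := hcon
    have h1 : ∑ e ∈ MM G, 1 < ∑ e ∈ MM G, #(S e) := by
      apply Finset.sum_lt_sum hone
      exact ⟨e, he, lt_of_le_of_ne (hone e he) (Ne.symm hne)⟩
    rw [Finset.sum_const, smul_eq_mul, mul_one] at h1
    omega
  have hun : (MM G).biUnion S = DD G := by
    apply Finset.eq_of_subset_of_card_le
    · intro f hf
      rw [Finset.mem_biUnion] at hf
      obtain ⟨e, _, hf⟩ := hf
      exact (Finset.mem_filter.1 hf).1
    · rw [Finset.card_biUnion hdisj, Finset.sum_congr rfl hS1, Finset.sum_const, smul_eq_mul,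
        mul_one, hDM]
  have htri : ∀ e : Sym2 V, ∃ q : V × V, e ∈ MM G → Tri G e (p e).1 (p e).2.1 q.1 q.2 ∧
      ∀ f ∈ S e, f = s(q.1, q.2) := by
    intro e
    by_cases he : e ∈ MM G
    · obtain ⟨h0, h⟩ := hp e he
      obtain ⟨a, b, hab, hua, hub, ha, hb, hau, hbu⟩ := h.nbrs
      obtain ⟨a', h1, h2, h3⟩ := h.second ha hau
      obtain ⟨b', k1, k2, k3⟩ := h.second hb hbu
      obtain ⟨f0, hf0⟩ := Finset.card_eq_one.1 (hS1 e he)
      have e1 := hmemS e he a ha hau a' h2 h3 h1
      have e2 := hmemS e he b hb hbu b' k2 k3 k1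
      rw [hf0, Finset.mem_singleton] at e1 e2
      have e3 := e1.trans e2.symm
      rw [Sym2.eq_iff] at e3
      rcases e3 with ⟨e3, _⟩ | ⟨e3, e4⟩
      · exact absurd e3 hab
      · refine ⟨(a, b), fun _ => ⟨⟨h0, h.adj, hua, hub, ?_, h.deg3, h.dv, h.deg2 a ha hau,
          h.deg2 b hb hbu⟩, ?_⟩⟩
        · rw [← e4]; exact h1
        · intro f hf
          rw [hf0, Finset.mem_singleton] at hf
          rw [hf, ← e1, e4]
    · exact ⟨(x0, x0), fun h => absurd h he⟩
  choose q hq using htri
  refine ⟨fun e => (p e).1, fun e => (p e).2.1, fun e => (q e).1, fun e => (q e).2,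
    fun e he => (hq e he).1, ?_⟩
  intro f hf
  rw [← hun, Finset.mem_biUnion] at hf
  obtain ⟨e, he, hf⟩ := hf
  exact ⟨e, he, (hq e he).2 f hf⟩

end

end Pool.Agent.T6.H11.EC
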